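import Pool.Agent.R775.HS.Good

/-!
# Locally effective actions by homeomorphisms which are regular somewhere
-/

set_option autoImplicit false

open MeasureTheory Set Metric Filter Topology TopologicalSpace
open scoped ENNReal NNReal

namespace Pool.Agent.R775.HS

open Pool.Agent.Y485.HS Pool.Agent.Y489.SP
open Pool.Agent.W660.GY (NSS GY3)

section
variable {n : ℕ} {X : Type} [TopologicalSpace X]

/-- the set of the elements with small energies on `B` and with images of `B` in `B'` -/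
def Dset {S : Type} [Group S] [MulAction S X] (ψ χ : OpenPartialHomeomorph X (E n))
    (r b : ℕ → ℝ) (B B' : Set (E n)) (m : ℕ) : Set S :=
  {s | (IsCompact (closure B') ∧ closure B' ⊆ χ.target ∧ B ⊆ ψ.target ∧ B.Nonempty ∧ IsOpen B) ∧
    (∀ v ∈ B, s • ψ.symm v ∈ χ.symm '' closure B') ∧
    ∀ j, m ≤ j → Ener B (r j) (b j) (fun v => χ (s • ψ.symm v))}

theorem isClosed_Dset [T2Space X] {S : Type} [Group S] [TopologicalSpace S] [MulAction S X]
    [ContinuousSMul S X] (ψ χ : OpenPartialHomeomorph X (E n)) (r b : ℕ → ℝ) (B B' : Set (E n))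
    (m : ℕ) : IsClosed (Dset (S := S) ψ χ r b B B' m) := by
  by_cases hc : IsCompact (closure B') ∧ closure B' ⊆ χ.target ∧ B ⊆ ψ.target ∧ B.Nonempty ∧
      IsOpen B
  swap
  · have : Dset (S := S) ψ χ r b B B' m = ∅ := by
      ext s
      simp only [Dset, mem_ofPred_eq, mem_empty_iff_false, iff_false, not_and]
      intro h
      exact (hc h).elim
    rw [this]
    exact isClosed_empty
  obtain ⟨hc1, hc2, hc3, hc4⟩ := id hc
  set D1 : Set S := {s | ∀ v ∈ B, s • ψ.symm v ∈ χ.symm '' closure B'} with hD1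
  have hcl : IsClosed (χ.symm '' closure B') :=
    (hc1.image_of_continuousOn (χ.continuousOn_symm.mono hc2)).isClosed
  have hsrc : χ.symm '' closure B' ⊆ χ.source := by
    rintro _ ⟨v, hv, rfl⟩
    exact χ.map_target (hc2 hv)
  have hD1c : IsClosed D1 := by
    have h1 : D1 = ⋂ v ∈ B, {s : S | s • ψ.symm v ∈ χ.symm '' closure B'} := by
      ext s
      simp [D1]
    rw [h1]
    refine isClosed_biInter fun v _ => ?_
    have hcont : Continuous (fun s : S => s • ψ.symm v) := by fun_prop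
    exact hcl.preimage hcont
  have hcont : ∀ v ∈ B, ContinuousOn (fun s : S => χ (s • ψ.symm v)) D1 := by
    intro v hv
    have h1 : Continuous (fun s : S => s • ψ.symm v) := by fun_prop
    exact χ.continuousOn.comp h1.continuousOn fun s hs => hsrc (hs v hv)
  have heq : Dset (S := S) ψ χ r b B B' m = D1 ∩ ⋂ (j : ℕ) (_ : m ≤ j) (A : Finset (E n))
      (x : E n → E n) (y : E n → E n)
      (_ : ∀ a ∈ A, a ∈ B ∧ x a ∈ B ∧ y a ∈ B ∧ dist (x a) a ≤ r j ∧ dist (y a) a ≤ r j)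
      (_ : ∀ a ∈ A, ∀ a' ∈ A, a ≠ a' → r j ≤ dist a a'),
      (D1 ∩ (fun s : S => ∑ a ∈ A, dist (χ (s • ψ.symm (x a))) (χ (s • ψ.symm (y a))) ^ n) ⁻¹'
        Iic (b j)) := by
    ext s
    simp only [Dset, mem_ofPred_eq, mem_inter_iff, mem_iInter, mem_preimage, mem_Iic, Ener, hD1]
    constructor
    · rintro ⟨-, h1, h2⟩
      exact ⟨h1, fun j hj A x y h3 h4 => ⟨h1, h2 j hj A x y h3 h4⟩⟩
    · rintro ⟨h1, h2⟩
      exact ⟨hc, h1, fun j hj A x y h3 h4 => (h2 j hj A x y h3 h4).2⟩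
  rw [heq]
  refine hD1c.inter ?_
  refine isClosed_iInter fun j => isClosed_iInter fun _ => isClosed_iInter fun A =>
    isClosed_iInter fun x => isClosed_iInter fun y => isClosed_iInter fun h1 =>
    isClosed_iInter fun _ => ?_
  refine ContinuousOn.preimage_isClosed_of_isClosed ?_ hD1c isClosed_Iic
  refine continuousOn_finsetSum _ fun a ha => ?_
  exact (continuous_dist.comp_continuousOn
    ((hcont _ (h1 a ha).2.1).prodMk (hcont _ (h1 a ha).2.2.1))).pow n

theorem exists_Dset {S : Type} [Group S] [TopologicalSpace S] [MulAction S X]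
    [ContinuousSMul S X] (ψ χ : OpenPartialHomeomorph X (E n)) {r b : ℕ → ℝ} {s : S} {W : Set X}
    (hWo : IsOpen W) (hWn : W.Nonempty) (hWs : W ⊆ ψ.source) (hsW : ∀ x ∈ W, s • x ∈ χ.source)
    {m : ℕ} (hE : ∀ j, m ≤ j → Ener (ψ '' W) (r j) (b j) (fun v => χ (s • ψ.symm v))) :
    ∃ B ∈ countableBasis (E n), ∃ B' ∈ countableBasis (E n), s ∈ Dset ψ χ r b B B' m := by
  obtain ⟨x0, hx0⟩ := hWn
  have hw : χ (s • x0) ∈ χ.target := χ.map_source (hsW x0 hx0)
  obtain ⟨ρ, hρ, hball⟩ := (nhds_basis_closedBall.mem_iff).1 (χ.open_target.mem_nhds hw)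
  obtain ⟨B', hB', hwB', hB's⟩ := (isBasis_countableBasis (E n)).mem_nhds_iff.1
    (ball_mem_nhds (χ (s • x0)) hρ)
  have hclB' : closure B' ⊆ closedBall (χ (s • x0)) ρ :=
    closure_minimal (hB's.trans ball_subset_closedBall) isClosed_closedBall
  have hcomp : IsCompact (closure B') :=
    (isCompact_closedBall _ _).of_isClosed_subset isClosed_closure hclB'
  have hBo' : IsOpen B' := (isBasis_countableBasis (E n)).isOpen hB'
  have hx0s := hWs hx0
  have hv0 : ψ x0 ∈ ψ.target := ψ.map_source hx0s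
  have hct : ContinuousAt ψ.symm (ψ x0) := ψ.continuousAt_symm hv0
  have hleft : ψ.symm (ψ x0) = x0 := ψ.left_inv hx0s
  have h1 : ∀ᶠ v in 𝓝 (ψ x0), v ∈ ψ.target ∧ ψ.symm v ∈ W ∧ χ (s • ψ.symm v) ∈ B' := by
    have e1 : ∀ᶠ v in 𝓝 (ψ x0), v ∈ ψ.target := ψ.open_target.mem_nhds hv0
    have e2 : ∀ᶠ v in 𝓝 (ψ x0), ψ.symm v ∈ W :=
      hct.eventually_mem (by rw [hleft]; exact hWo.mem_nhds hx0)
    have e3 : ContinuousAt (fun v => χ (s • ψ.symm v)) (ψ x0) := by
      have f1 : ContinuousAt (fun v => s • ψ.symm v) (ψ x0) := hct.const_smul s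
      refine ContinuousAt.comp (g := χ) (f := fun v => s • ψ.symm v) ?_ f1
      simp only [hleft]
      exact χ.continuousAt (hsW x0 hx0)
    have e4 : ∀ᶠ v in 𝓝 (ψ x0), χ (s • ψ.symm v) ∈ B' :=
      e3.eventually_mem (by simp only [hleft]; exact hBo'.mem_nhds hwB')
    exact e1.and (e2.and e4)
  obtain ⟨B, hB, hvB, hBs⟩ := (isBasis_countableBasis (E n)).mem_nhds_iff.1 h1
  refine ⟨B, hB, B', hB', ⟨hcomp, hclB'.trans hball, fun v hv => (hBs hv).1, ⟨_, hvB⟩,
    (isBasis_countableBasis (E n)).isOpen hB⟩, ?_, ?_⟩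
  · intro v hv
    obtain ⟨f1, f2, f3⟩ := hBs hv
    exact ⟨_, subset_closure f3, χ.left_inv (hsW _ f2)⟩
  · intro j hj
    refine ener_mono (fun v hv => ?_) le_rfl (hE j hj)
    obtain ⟨f1, f2, f3⟩ := hBs hv
    exact ⟨_, f2, ψ.right_inv f1⟩

/-- the theorem for one compact group -/
theorem some_compact (hn : 1 ≤ n) [T2Space X] (Ψ : ℕ → OpenPartialHomeomorph X (E n))
    {S : Type} [Group S] [TopologicalSpace S] [IsTopologicalGroup S] [CompactSpace S] [T2Space S]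
    [TotallyDisconnectedSpace S] [MulAction S X] [ContinuousSMul S X] {r' b' : ℕ → ℕ → ℝ}
    (hr' : ∀ k j, 0 < r' k j) (hrb' : ∀ k, Tendsto (fun j => r' k j * b' k j) atTop (𝓝 0))
    (hreg : ∀ s : S, ∃ (i i' k : ℕ) (W : Set X), IsOpen W ∧ W.Nonempty ∧ W ⊆ (Ψ i).source ∧
      (∀ x ∈ W, s • x ∈ (Ψ i').source) ∧
      ∃ m : ℕ, ∀ j, m ≤ j → Ener (Ψ i '' W) (r' k j) (b' k j)
        (fun v => Ψ i' (s • (Ψ i).symm v))) :
    ∃ K : Subgroup S, IsOpen (K : Set S) ∧ ∃ (i : ℕ) (W : Set X), IsOpen W ∧ W.Nonempty ∧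
      W ⊆ (Ψ i).source ∧ ∀ k ∈ K, ∀ x ∈ W, k • x = x := by
  -- Baire
  have hcount : (countableBasis (E n)).Countable := countable_countableBasis (E n)
  have : Countable (countableBasis (E n)) := hcount.to_subtype
  let f : (countableBasis (E n)) × (countableBasis (E n)) × ℕ × ℕ × ℕ × ℕ → Set S := fun q =>
    Dset (Ψ q.2.2.1) (Ψ q.2.2.2.1) (r' q.2.2.2.2.1) (b' q.2.2.2.2.1) q.1 q.2.1 q.2.2.2.2.2
  have hU : ⋃ q, f q = univ := by
    ext s
    simp only [mem_iUnion, mem_univ, iff_true]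
    obtain ⟨i, i', k, W, hWo, hWn, hWs, hsW, m, hE⟩ := hreg s
    obtain ⟨B, hB, B', hB', h⟩ := exists_Dset (Ψ i) (Ψ i') hWo hWn hWs hsW hE
    exact ⟨(⟨B, hB⟩, ⟨B', hB'⟩, i, i', k, m), h⟩
  obtain ⟨⟨⟨B, hB⟩, ⟨B', hB'⟩, i0, i1, k0, m⟩, s0, hs0⟩ :=
    nonempty_interior_of_iUnion_of_closed (f := f)
      (fun q => isClosed_Dset _ _ _ _ _ _ _) hU
  obtain ⟨ψ, hψ⟩ : ∃ ψ, ψ = Ψ i0 := ⟨_, rfl⟩
  obtain ⟨χ, hχ⟩ : ∃ χ, χ = Ψ i1 := ⟨_, rfl⟩
  obtain ⟨r, hrr⟩ : ∃ r, r = r' k0 := ⟨_, rfl⟩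
  obtain ⟨b, hbb⟩ : ∃ b, b = b' k0 := ⟨_, rfl⟩
  have hr : ∀ j, 0 < r j := by rw [hrr]; exact hr' k0
  have hrb : Tendsto (fun j => r j * b j) atTop (𝓝 0) := by rw [hrr, hbb]; exact hrb' k0
  have hopen : IsOpen ((fun k : S => s0 * k) ⁻¹'
      (interior (f (⟨B, hB⟩, ⟨B', hB'⟩, i0, i1, k0, m)))) :=
    isOpen_interior.preimage (continuous_const.mul continuous_id)
  obtain ⟨N, hN⟩ := ProfiniteGrp.exist_openNormalSubgroup_sub_open_nhds_of_one hopen (by
    rw [mem_preimage, mul_one]; exact hs0)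
  have hD : ∀ k ∈ N.toSubgroup, s0 * k ∈ Dset ψ χ r b B B' m := fun k hk => by
    rw [hψ, hχ, hrr, hbb]
    exact interior_subset (hN hk)
  set K : Subgroup S := N.toSubgroup with hK
  have hKo : IsOpen (K : Set S) := N.isOpen'
  have hKc : IsClosed (K : Set S) := Subgroup.isClosed_of_isOpen K hKo
  have : CompactSpace K := isCompact_iff_compactSpace.1 hKc.isCompact
  obtain ⟨⟨hc1, hc2, hc3, hc4, hc5⟩, hc6, hc7⟩ := hD 1 K.one_mem
  have hsrc : χ.symm '' closure B' ⊆ χ.source := by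
    rintro _ ⟨v, hv, rfl⟩
    exact χ.map_target (hc2 hv)
  rw [mul_one] at hc6
  -- the charts
  let A : Set (OpenPartialHomeomorph X (E n)) := {φ | φ.source ⊆ ψ.source ∩ ψ ⁻¹' B ∧
    ∃ L : ℝ, 0 ≤ L ∧ ∀ a ∈ φ.source, ∀ a' ∈ φ.source,
      dist (φ a) (φ a') ≤ L * dist (χ (s0 • a)) (χ (s0 • a'))}
  have hA : Stable n A := by
    rintro φ ⟨h1, L, hL0, hL⟩ e ⟨L', hL'⟩
    have hsub : (φ.trans e).source ⊆ φ.source := by
      rw [OpenPartialHomeomorph.trans_source]
      exact inter_subset_left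
    refine ⟨hsub.trans h1, |L'| * L, by positivity, fun a ha a' ha' => ?_⟩
    have ha2 := ha
    have ha2' := ha'
    rw [OpenPartialHomeomorph.trans_source] at ha2 ha2'
    have e1 := (hL' (φ a) ha2.2 (φ a') ha2'.2).1
    have e2 := hL a (hsub ha) a' (hsub ha')
    calc dist ((φ.trans e) a) ((φ.trans e) a') ≤ L' * dist (φ a) (φ a') := e1
      _ ≤ |L'| * dist (φ a) (φ a') := mul_le_mul_of_nonneg_right (le_abs_self _) dist_nonneg
      _ ≤ |L'| * (L * dist (χ (s0 • a)) (χ (s0 • a'))) := by gcongr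
      _ = _ := by ring
  obtain ⟨v1, hv1⟩ := hc4
  have hO : IsOpen (ψ.source ∩ ψ ⁻¹' B) := ψ.isOpen_inter_preimage hc5
  have hx1 : ψ.symm v1 ∈ RegA A := by
    refine ⟨((Homeomorph.smul s0).toOpenPartialHomeomorph.trans χ).restrOpen _ hO, ⟨?_, 1,
      zero_le_one, ?_⟩, ?_⟩
    · rw [OpenPartialHomeomorph.restrOpen_source]
      exact inter_subset_right
    · intro a _ a' _
      rw [one_mul]
      exact le_of_eq rfl
    · rw [OpenPartialHomeomorph.restrOpen_source, OpenPartialHomeomorph.trans_source]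
      refine ⟨⟨mem_univ _, ?_⟩, ψ.map_target (hc3 hv1), ?_⟩
      · show s0 • ψ.symm v1 ∈ χ.source
        exact hsrc (hc6 v1 hv1)
      · show ψ (ψ.symm v1) ∈ B
        rw [ψ.right_inv (hc3 hv1)]
        exact hv1
  have hcrit : ∀ k : K, Crit A k := by
    intro k p hp hgp hcomp φ hφ hsm
    obtain ⟨hφs, L, hL0, hL⟩ := hφ
    have h34 : closedBall (0 : E n) 3 ⊆ closedBall 0 4 :=
      closedBall_subset_closedBall (by norm_num)
    have ht3 : closedBall (0 : E n) 3 ⊆ φ.target := h34.trans hsm.1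
    have hτs : ∀ v ∈ closedBall (0 : E n) 3, φ.symm v ∈ φ.source := fun v hv =>
      φ.map_target (ht3 hv)
    have hτψ : ∀ v ∈ closedBall (0 : E n) 3, ψ.symm (ψ (φ.symm v)) = φ.symm v := fun v hv =>
      ψ.left_inv (hφs (hτs v hv)).1
    refine exists_good (τ := fun v => ψ (φ.symm v)) (σ := fun u => φ (ψ.symm u)) hcomp hsm
      ?_ ?_ ?_ (r := fun j => r (j + m)) (b := fun j => L ^ n * b (j + m)) (fun j => hr _) ?_ ?_
    · refine ψ.continuousOn.comp (φ.continuousOn_symm.mono ht3) fun v hv => ?_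
      exact (hφs (hτs v hv)).1
    · refine φ.continuousOn.comp (ψ.continuousOn_symm.mono ?_) ?_
      · rintro _ ⟨v, hv, rfl⟩
        exact ψ.map_source (hφs (hτs v hv)).1
      · rintro _ ⟨v, hv, rfl⟩
        show ψ.symm (ψ (φ.symm v)) ∈ φ.source
        rw [hτψ v hv]
        exact hτs v hv
    · intro v hv
      show φ (ψ.symm (ψ (φ.symm v))) = v
      rw [hτψ v hv, φ.right_inv (ht3 hv)]
    · have h1 := (tendsto_add_atTop_iff_nat m).2 hrb
      have h2 := h1.const_mul (L ^ n)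
      rw [mul_zero] at h2
      refine h2.congr fun j => ?_
      ring
    · intro q hq j
      have hEq := (hD (q : S) q.2).2.2 (j + m) (by omega)
      intro F x y h1 h2
      have hval : ∀ u ∈ (fun v => ψ (φ.symm v)) '' closedBall (0 : E n) 3,
          u ∈ B ∧ φ.symm (φ (ψ.symm u)) = ψ.symm u ∧ (q : S) • ψ.symm u ∈ φ.source := by
        rintro _ ⟨v, hv, rfl⟩
        have e1 := hτψ v hv
        refine ⟨(hφs (hτs v hv)).2, ?_, ?_⟩
        · show φ.symm (φ (ψ.symm (ψ (φ.symm v)))) = ψ.symm (ψ (φ.symm v))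
          rw [e1, φ.left_inv (hτs v hv)]
        · show (q : S) • ψ.symm (ψ (φ.symm v)) ∈ φ.source
          rw [e1]
          exact (hsm.2 q hq v (h34 hv)).1
      have h3 := hEq F x y (fun a ha => by
        obtain ⟨g1, g2, g3, g4⟩ := h1 a ha
        exact ⟨(hval _ g1).1, (hval _ g2).1, (hval _ g3).1, g4⟩) h2
      calc ∑ a ∈ F, dist (φ (q • φ.symm (φ (ψ.symm (x a))))) (φ (q • φ.symm (φ (ψ.symm (y a))))) ^ n
          ≤ ∑ a ∈ F, L ^ n * dist (χ ((s0 * (q : S)) • ψ.symm (x a)))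
              (χ ((s0 * (q : S)) • ψ.symm (y a))) ^ n := by
            refine Finset.sum_le_sum fun a ha => ?_
            obtain ⟨-, g2, g3, -⟩ := h1 a ha
            obtain ⟨-, hx2, hx3⟩ := hval _ g2
            obtain ⟨-, hy2, hy3⟩ := hval _ g3
            rw [hx2, hy2, ← mul_pow, mul_smul, mul_smul]
            exact pow_le_pow_left₀ dist_nonneg (hL _ hx3 _ hy3) n
        _ = L ^ n * ∑ a ∈ F, dist (χ ((s0 * (q : S)) • ψ.symm (x a)))
              (χ ((s0 * (q : S)) • ψ.symm (y a))) ^ n := by rw [Finset.mul_sum]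
        _ ≤ L ^ n * b (j + m) := by gcongr
  obtain ⟨K1, hK1o, hK1t⟩ := locTriv' hn hA (H := K) hcrit hx1
  refine ⟨K1.map K.subtype, ?_, ?_⟩
  · rw [Subgroup.coe_map]
    exact hKo.isOpenMap_subtype_val _ hK1o
  · obtain ⟨W, hW, hWo, hxW⟩ := eventually_nhds_iff.1 hK1t
    refine ⟨i0, W ∩ ψ.source, hWo.inter ψ.open_source, ⟨_, hxW, ψ.map_target (hc3 hv1)⟩,
      hψ ▸ inter_subset_right, ?_⟩
    rintro _ ⟨k, hk, rfl⟩ x hx
    exact hW x hx.1 k hk

/-- the powers of `g` have compact closure contained in `V` -/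
def SmallPow {G : Type} [Group G] [TopologicalSpace G] (V : Set G) (g : G) : Prop :=
  IsCompact (closure (Subgroup.zpowers g : Set G)) ∧ closure (Subgroup.zpowers g : Set G) ⊆ V

theorem smallPow_of_hom {S G : Type} [Group S] [TopologicalSpace S] [IsTopologicalGroup S]
    [CompactSpace S] [Group G] [TopologicalSpace G] [IsTopologicalGroup G] [T2Space G]
    {V : Set G} (i : S →* G) (hi : Continuous i) (hV : ∀ s, i s ∈ V) (s : S) :
    SmallPow V (i s) := by
  have h1 := closure_zpowers_le i hi s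
  rw [Subgroup.topologicalClosure_coe] at h1
  refine ⟨?_, ?_⟩
  · exact ((((Subgroup.isClosed_topologicalClosure _).isCompact).image hi)).of_isClosed_subset
      isClosed_closure h1
  · intro k hk
    obtain ⟨k', -, rfl⟩ := h1 hk
    exact hV k'

/-- the theorem for locally compact groups -/
theorem lie_some (hn : 1 ≤ n) [T2Space X] (Ψ : ℕ → OpenPartialHomeomorph X (E n))
    {G : Type} [Group G] [TopologicalSpace G] [IsTopologicalGroup G] [LocallyCompactSpace G]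
    [T2Space G] [MulAction G X] [ContinuousSMul G X] {V : Set G} (hV : V ∈ 𝓝 (1 : G))
    (hLE : ∀ g, SmallPow V g → ∀ (i : ℕ) (W : Set X), IsOpen W → W.Nonempty → W ⊆ (Ψ i).source →
      (∀ x ∈ W, g • x = x) → g = 1)
    {r b : ℕ → ℕ → ℝ} (hr : ∀ k j, 0 < r k j)
    (hrb : ∀ k, Tendsto (fun j => r k j * b k j) atTop (𝓝 0))
    (hreg : ∀ g, SmallPow V g → ∃ (i i' k : ℕ) (W : Set X), IsOpen W ∧ W.Nonempty ∧ W ⊆ (Ψ i).source ∧
      (∀ x ∈ W, g • x ∈ (Ψ i').source) ∧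
      ∃ m : ℕ, ∀ j, m ≤ j → Ener (Ψ i '' W) (r k j) (b k j)
        (fun v => Ψ i' (g • (Ψ i).symm v))) :
    IsLie G := by
  have hN : NSS G := by
    refine nss_of_Z V hV ?_
    intro S _ _ _ _ _ _ i hi hinj hiV
    let _ : MulAction S X := MulAction.compHom X i
    have _ : ContinuousSMul S X := ⟨by
      have h : Continuous (fun q : S × X => i q.1 • q.2) := by fun_prop
      exact h⟩
    obtain ⟨K, hKo, i0, W, hWo, hWn, hWs, hKW⟩ := some_compact (S := S) hn Ψ hr hrb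
      (fun s => hreg (i s) (smallPow_of_hom i hi hiV s))
    have hbot : K = ⊥ := by
      rw [eq_bot_iff]
      intro k hk
      rw [Subgroup.mem_bot]
      apply hinj
      rw [map_one]
      exact hLE (i k) (smallPow_of_hom i hi hiV k) i0 W hWo hWn hWs fun x hx => hKW k hk x hx
    rw [hbot] at hKo
    refine discreteTopology_of_isOpen_singleton_one ?_
    convert hKo using 1
    ext x
    simp
  obtain ⟨E, i1, i2, i3, ⟨C⟩⟩ := Pool.Agent.Y328.HS.lga G hN
  let _ := i1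
  let _ := i2
  have _ := i3
  exact Pool.Agent.Y286.HS.lgb G E C

end

end Pool.Agent.R775.HS
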