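import Pool.Agent.Y489.SP.Part

/-!
# Cyclic partition of a compact set no component of which is invariant

Adaptation of `Pool/Agent/Y489/SP/Part.lean` (helper489).
-/

set_option autoImplicit false

open Set Metric Filter Topology

namespace Pool.Agent.R775.HS

open Pool.Agent.Y485.HS Pool.Agent.Y489.SP.Part

/-- cyclic partition from a finite code -/
theorem cyc_of_code {n p : ℕ} (hp : p.Prime) {Φ : Set (E n)} {τ : E n → E n} (hΦ : IsCompact Φ)
    (hτ : ContinuousOn τ Φ) (hmap : ∀ x ∈ Φ, τ x ∈ Φ)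
    (hunif : ∀ ε : ℝ, 0 < ε → ∃ J : ℕ, ∀ x ∈ Φ, dist (τ^[p ^ J] x) x < ε) {T : Type}
    (c : E n → (T → Prop)) (hcτ : ∀ x ∈ Φ, c (τ x) ≠ c x) {ε : ℝ} (hε : 0 < ε)
    (hεc : ∀ x ∈ Φ, ∀ x' ∈ Φ, dist x x' < ε → c x = c x') :
    ∃ W : ZMod p → Set (E n), (∀ i, IsCompact (W i)) ∧ (∀ i j, i ≠ j → Disjoint (W i) (W j)) ∧
      (⋃ i, W i) = Φ ∧ ∀ i, ∀ x ∈ W i, τ x ∈ W (i + 1) := by
  classical
  obtain ⟨J, hJ⟩ := hunif ε hε
  have hit : ∀ k : ℕ, ∀ x ∈ Φ, τ^[k] x ∈ Φ := by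
    intro k
    induction k with
    | zero => intro x hx; exact hx
    | succ k ih => intro x hx; rw [Function.iterate_succ_apply]; exact ih _ (hmap x hx)
  obtain ⟨q, hqdef⟩ : ∃ q : ℕ, q = p ^ J := ⟨_, rfl⟩
  have hqpos : 0 < q := by rw [hqdef]; exact pow_pos hp.pos J
  let code : E n → ℕ → T → Prop := fun x k => c (τ^[k] x)
  have hper : ∀ x ∈ Φ, ∀ k, code x (k + q) = code x k := by
    intro x hx k
    show c (τ^[k + q] x) = c (τ^[k] x)
    rw [add_comm, Function.iterate_add_apply, hqdef]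
    exact hεc _ (hit _ _ (hit _ _ hx)) _ (hit _ _ hx) (hJ _ (hit _ _ hx))
  let Ω : Type := {f : ℕ → T → Prop // ∃ x ∈ Φ, f = code x}
  have hΩper : ∀ f : Ω, ∀ k, f.1 (k + q) = f.1 k := by
    rintro ⟨f, x, hx, rfl⟩ k
    exact hper x hx k
  have hshift : ∀ j : ℕ, ∀ f : Ω, ∃ x ∈ Φ, (fun k => f.1 (k + j)) = code x := by
    rintro j ⟨f, x, hx, rfl⟩
    refine ⟨τ^[j] x, hit j x hx, funext fun k => ?_⟩
    show c (τ^[k + j] x) = c (τ^[k] (τ^[j] x))
    rw [Function.iterate_add_apply]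
  let s : Equiv.Perm Ω :=
    { toFun := fun f => ⟨fun k => f.1 (k + 1), hshift 1 f⟩
      invFun := fun f => ⟨fun k => f.1 (k + (q - 1)), hshift (q - 1) f⟩
      left_inv := by
        intro f
        apply Subtype.ext
        funext k
        show f.1 (k + (q - 1) + 1) = f.1 k
        rw [show k + (q - 1) + 1 = k + q by omega]
        exact hΩper f k
      right_inv := by
        intro f
        apply Subtype.ext
        funext k
        show f.1 (k + 1 + (q - 1)) = f.1 k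
        rw [show k + 1 + (q - 1) = k + q by omega]
        exact hΩper f k }
  have hspow : ∀ j : ℕ, ∀ f : Ω, ∀ k, ((s ^ j) f).1 k = f.1 (k + j) := by
    intro j
    induction j with
    | zero => intro f k; simp
    | succ j ih =>
      intro f k
      rw [pow_succ, Equiv.Perm.mul_apply, ih]
      show f.1 (k + j + 1) = f.1 (k + (j + 1))
      rfl
  have hs1 : s ^ (p ^ J) = 1 := by
    ext f : 1
    apply Subtype.ext
    funext k
    rw [hspow, ← hqdef, hΩper]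
    rfl
  have hsfix : ∀ f : Ω, s f ≠ f := by
    rintro ⟨f, x, hx, rfl⟩ h
    have h1 := congrFun (congrArg Subtype.val h) 0
    have h2 : code x 1 = code x 0 := h1
    exact hcτ x hx h2
  obtain ⟨κ, hκ⟩ := exists_kappa s p J hp hs1 hsfix
  let cd : ∀ x, x ∈ Φ → Ω := fun x hx => ⟨code x, x, hx, rfl⟩
  let W : ZMod p → Set (E n) := fun i => {x | ∃ hx : x ∈ Φ, κ (cd x hx) = i}
  have hloc : ∀ x ∈ Φ, ∃ η : ℝ, 0 < η ∧ ∀ x' ∈ Φ, dist x' x < η → code x' = code x := by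
    intro x hx
    have hk : ∀ k : ℕ, ∃ η : ℝ, 0 < η ∧ ∀ x' ∈ Φ, dist x' x < η → code x' k = code x k := by
      intro k
      have hcont : ContinuousOn (τ^[k]) Φ := hτ.iterate (fun x hx => hmap x hx) k
      obtain ⟨η, hη, h⟩ := Metric.continuousOn_iff.1 hcont x hx ε hε
      exact ⟨η, hη, fun x' hx' hd => hεc _ (hit k x' hx') _ (hit k x hx) (h x' hx' hd)⟩
    choose η hη h using hk
    obtain ⟨k0, hk0, hmin0⟩ := Finset.exists_min_image (Finset.range q) η ⟨0, by simpa using hqpos⟩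
    refine ⟨η k0, hη k0, fun x' hx' hd => funext fun k => ?_⟩
    have hmod : ∀ y ∈ Φ, ∀ k, code y k = code y (k % q) := by
      intro y hy k
      induction k using Nat.strong_induction_on with
      | _ k ih =>
        rcases lt_or_ge k q with hlt | hge
        · rw [Nat.mod_eq_of_lt hlt]
        · have h1 := hper y hy (k - q)
          rw [Nat.sub_add_cancel hge] at h1
          rw [h1, ih (k - q) (by omega), Nat.mod_eq_sub_mod hge]
    rw [hmod x' hx' k, hmod x hx k]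
    refine h _ x' hx' (lt_of_lt_of_le hd (hmin0 _ ?_))
    exact Finset.mem_range.2 (Nat.mod_lt _ hqpos)
  have hcd : ∀ x (hx : x ∈ Φ) x' (hx' : x' ∈ Φ), code x = code x' → cd x hx = cd x' hx' :=
    fun x hx x' hx' h => Subtype.ext h
  refine ⟨W, fun i => ?_, ?_, ?_, ?_⟩
  · choose! η hη h using hloc
    have h1 : W i = Φ \ ⋃ x ∈ Φ \ W i, ball x (η x) := by
      ext z
      constructor
      · rintro ⟨hz, hzi⟩
        refine ⟨hz, fun hz' => ?_⟩
        obtain ⟨x, ⟨hx, hxW⟩, hzx⟩ := mem_iUnion₂.1 hz'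
        exact hxW ⟨hx, by rw [← hzi, hcd z hz x hx (h x hx z hz hzx)]⟩
      · rintro ⟨hz, hz'⟩
        by_contra hzW
        exact hz' (mem_iUnion₂.2 ⟨z, ⟨hz, hzW⟩, mem_ball_self (hη z hz)⟩)
    rw [h1]
    exact hΦ.diff (isOpen_biUnion fun x _ => isOpen_ball)
  · intro i j hij
    rw [Set.disjoint_left]
    rintro x ⟨hx, h1⟩ ⟨hx', h2⟩
    exact hij (h1.symm.trans h2)
  · ext x
    constructor
    · intro hx
      obtain ⟨i, hx', -⟩ := mem_iUnion.1 hx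
      exact hx'
    · intro hx
      exact mem_iUnion.2 ⟨κ (cd x hx), hx, rfl⟩
  · rintro i x ⟨hx, rfl⟩
    refine ⟨hmap x hx, ?_⟩
    rw [← hκ]
    congr 1

/-- points in different components of a compact set are separated by a relatively clopen set -/
theorem sep_comp {n : ℕ} {Φ : Set (E n)} (hΦ : IsCompact Φ) {x y : E n} (hx : x ∈ Φ) (hy : y ∈ Φ)
    (hxy : y ∉ connectedComponentIn Φ x) :
    ∃ U V : Set (E n), IsCompact U ∧ IsCompact V ∧ Disjoint U V ∧ U ∪ V = Φ ∧ x ∈ U ∧ y ∈ V := by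
  have : CompactSpace Φ := isCompact_iff_compactSpace.1 hΦ
  have h1 : (⟨y, hy⟩ : Φ) ∉ connectedComponent (⟨x, hx⟩ : Φ) := by
    intro h
    apply hxy
    rw [connectedComponentIn_eq_image hx]
    exact ⟨⟨y, hy⟩, h, rfl⟩
  rw [connectedComponent_eq_iInter_isClopen] at h1
  simp only [mem_iInter, not_forall] at h1
  obtain ⟨⟨s, hs, hxs⟩, hys⟩ := h1
  refine ⟨Subtype.val '' s, Subtype.val '' sᶜ, hs.1.isCompact.image continuous_subtype_val,
    hs.compl.1.isCompact.image continuous_subtype_val, ?_, ?_, ⟨_, hxs, rfl⟩, ⟨_, hys, rfl⟩⟩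
  · rw [Set.disjoint_left]
    rintro _ ⟨a, ha, rfl⟩ ⟨b, hb, hab⟩
    exact hb (Subtype.ext hab ▸ ha)
  · rw [← image_union, union_compl_self, image_univ, Subtype.range_coe]

/-- cyclic partition of a compact set no component of which is invariant -/
theorem cyc_of_comp {n p : ℕ} (hp : p.Prime) {Φ : Set (E n)} {τ : E n → E n} (hΦ : IsCompact Φ)
    (hτ : ContinuousOn τ Φ) (hmap : ∀ x ∈ Φ, τ x ∈ Φ)
    (hunif : ∀ ε : ℝ, 0 < ε → ∃ J : ℕ, ∀ x ∈ Φ, dist (τ^[p ^ J] x) x < ε)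
    (hcomp : ∀ x ∈ Φ, τ x ∉ connectedComponentIn Φ x) :
    ∃ W : ZMod p → Set (E n), (∀ i, IsCompact (W i)) ∧ (∀ i j, i ≠ j → Disjoint (W i) (W j)) ∧
      (⋃ i, W i) = Φ ∧ ∀ i, ∀ x ∈ W i, τ x ∈ W (i + 1) := by
  classical
  have h1 : ∀ x : Φ, ∃ U V : Set (E n), IsCompact U ∧ IsCompact V ∧ Disjoint U V ∧ U ∪ V = Φ ∧
      (x : E n) ∈ U ∧ τ x ∈ V := fun x =>
    sep_comp hΦ x.2 (hmap _ x.2) (hcomp _ x.2)
  choose U V hU hV hUV hUVΦ hxU hxV using h1
  -- neighbourhoods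
  have h2 : ∀ x : Φ, ∃ O : Set (E n), IsOpen O ∧ (x : E n) ∈ O ∧ ∀ z ∈ O ∩ Φ, z ∈ U x ∧ τ z ∈ V x := by
    intro x
    have e1 : (x : E n) ∈ (V x)ᶜ := fun h => (Set.disjoint_left.1 (hUV x)) (hxU x) h
    have e2 : τ x ∈ (U x)ᶜ := fun h => (Set.disjoint_left.1 (hUV x)) h (hxV x)
    obtain ⟨O1, hO1, hxO1, hO1s⟩ := (_root_.continuousOn_iff.1 hτ) x x.2 (U x)ᶜ
      (hU x).isClosed.isOpen_compl e2
    refine ⟨(V x)ᶜ ∩ O1, (hV x).isClosed.isOpen_compl.inter hO1, ⟨e1, hxO1⟩, ?_⟩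
    rintro z ⟨⟨hz1, hz2⟩, hzΦ⟩
    have hz3 : z ∈ U x ∪ V x := by rw [hUVΦ x]; exact hzΦ
    have hz4 : τ z ∈ U x ∪ V x := by rw [hUVΦ x]; exact hmap z hzΦ
    exact ⟨hz3.resolve_right hz1, hz4.resolve_left (hO1s ⟨hz2, hzΦ⟩)⟩
  choose O hO hxO hOs using h2
  obtain ⟨T, hT⟩ := hΦ.elim_finite_subcover O hO (fun x hx => mem_iUnion.2 ⟨⟨x, hx⟩, hxO ⟨x, hx⟩⟩)
  let c : E n → (T → Prop) := fun x j => x ∈ U j.1
  have hcτ : ∀ x ∈ Φ, c (τ x) ≠ c x := by
    intro x hx hc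
    obtain ⟨j, hj, hxj⟩ := mem_iUnion₂.1 (hT hx)
    obtain ⟨k1, k2⟩ := hOs j x ⟨hxj, hx⟩
    have h3 : (τ x ∈ U j) = (x ∈ U j) := congrFun hc ⟨j, hj⟩
    have h4 : τ x ∈ U j := h3 ▸ k1
    exact (Set.disjoint_left.1 (hUV j)) h4 k2
  have hq : ∀ j : T, ∃ ε : ℝ, 0 < ε ∧ ∀ x ∈ Φ, ∀ x' ∈ Φ, dist x x' < ε → c x j = c x' j := by
    intro j
    rcases (U j.1).eq_empty_or_nonempty with hne | hne
    · exact ⟨1, one_pos, fun x _ x' _ _ => by simp [c, hne]⟩
    rcases (V j.1).eq_empty_or_nonempty with hne' | hne'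
    · refine ⟨1, one_pos, fun x hx x' hx' _ => ?_⟩
      have e : U j.1 = Φ := by
        have e1 := hUVΦ j.1
        rwa [hne', union_empty] at e1
      simp [c, e, hx, hx']
    obtain ⟨ε, hε, hd⟩ := (hUV j.1).exists_thickenings (hU j.1) (hV j.1).isClosed
    refine ⟨ε, hε, fun x hx x' hx' hxx => ?_⟩
    have key : ∀ a ∈ Φ, ∀ b ∈ Φ, dist a b < ε → a ∈ U j.1 → b ∈ U j.1 := by
      intro a ha b hb hab haU
      have hb' : b ∈ U j.1 ∪ V j.1 := by rw [hUVΦ j.1]; exact hb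
      refine hb'.resolve_right fun hbV => ?_
      refine (Set.disjoint_left.1 hd) (a := b) ?_ (self_subset_thickening hε _ hbV)
      rw [mem_thickening_iff]
      exact ⟨a, haU, by rwa [dist_comm]⟩
    apply propext
    exact ⟨key x hx x' hx' hxx, key x' hx' x hx (by rwa [dist_comm])⟩
  choose ε hε hεc using hq
  rcases isEmpty_or_nonempty T with hTe | hTn
  · exact cyc_of_code hp hΦ hτ hmap hunif c hcτ one_pos
      (fun x _ x' _ _ => funext fun q => hTe.elim q)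
  · obtain ⟨q0, hq0⟩ := Finite.exists_min ε
    exact cyc_of_code hp hΦ hτ hmap hunif c hcτ (hε q0) (fun x hx x' hx' hd => funext fun q =>
      hεc q x hx x' hx' (lt_of_lt_of_le hd (hq0 q)))

end Pool.Agent.R775.HS
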