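import Pool.Agent.Y566.SP.Far

/-!
# The faces of cubes and open embeddings

Adaptation of `Pool/Agent/Y566/SP/Far.lean`.
-/

set_option autoImplicit false

open MeasureTheory Set Metric Filter Topology
open scoped ENNReal NNReal

noncomputable section

namespace Pool.Agent.R775.HS

open Pool.Agent.Y485.HS Pool.Agent.Y566.SP

theorem far' {n : ℕ} (u : OpenPartialHomeomorph (E n) (E n)) {a : E n} {t : ℝ}
    (hQ : Q a t ⊆ u.source) {x x' : E n} (hx : x ∈ Q a t)
    (hmax : ∀ z ∈ Q a t, dist (u z) (u x') ≤ dist (u x) (u x'))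
    (hne : u x ≠ u x') : ∃ i, |x i - a i| = t := by
  by_contra hcon
  push Not at hcon
  have hlt : ∀ i, |x i - a i| < t := fun i => lt_of_le_of_ne (hx i) (hcon i)
  have hopen : IsOpen {z : E n | ∀ i, |z i - a i| < t} := by
    have : {z : E n | ∀ i, |z i - a i| < t} = ⋂ i, {z : E n | |z i - a i| < t} := by
      ext; simp
    rw [this]
    exact isOpen_iInter_of_finite fun i => isOpen_lt (by fun_prop) continuous_const
  have hxs : x ∈ u.source := hQ hx
  have huB : u.target ∈ 𝓝 (u x) := u.open_target.mem_nhds (u.map_source hxs)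
  have hc : ContinuousAt u.symm (u x) := u.continuousAt_symm (u.map_source hxs)
  have hinv : u.symm (u x) = x := u.left_inv hxs
  have hev : ∀ᶠ w in 𝓝 (u x), u.symm w ∈ {z : E n | ∀ i, |z i - a i| < t} := by
    apply hc
    rw [hinv]
    exact hopen.mem_nhds hlt
  have hray : Tendsto (fun s : ℝ => u x + s • (u x - u x')) (𝓝[>] 0) (𝓝 (u x)) := by
    have h1 : Continuous (fun s : ℝ => u x + s • (u x - u x')) := by fun_prop
    have h2 := h1.tendsto 0
    simp only [zero_smul, add_zero] at h2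
    exact h2.mono_left nhdsWithin_le_nhds
  have hev2 : ∀ᶠ s in 𝓝[>] (0 : ℝ), 0 < s := self_mem_nhdsWithin
  obtain ⟨s, ⟨hs1, hs2⟩, hs0⟩ := (((hray.eventually (hev.and huB)).and hev2)).exists
  have hzQ : u.symm (u x + s • (u x - u x')) ∈ Q a t := fun i => (hs1 i).le
  have huw : u (u.symm (u x + s • (u x - u x'))) = u x + s • (u x - u x') := u.right_inv hs2
  have hle := hmax _ hzQ
  rw [huw] at hle
  have h3 : dist (u x + s • (u x - u x')) (u x') = (1 + s) * dist (u x) (u x') := by
    rw [dist_eq_norm, dist_eq_norm]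
    have : u x + s • (u x - u x') - u x' = (1 + s) • (u x - u x') := by module
    rw [this, norm_smul, Real.norm_eq_abs, abs_of_pos (by linarith)]
  rw [h3] at hle
  have := dist_pos.2 hne
  nlinarith

theorem faces' {m : ℕ} (hm : 1 ≤ m) (u : OpenPartialHomeomorph (E (m + 1)) (E (m + 1)))
    {a : E (m + 1)} {t : ℝ} (ht : 0 ≤ t) (hQ : Q a t ⊆ u.source) :
    ∃ (i : Fin (m + 1)) (s : ℝ) (x y : E (m + 1)), |s| = 1 ∧ x ∈ Q a t ∧ y ∈ Q a t ∧
      x i = a i + s * t ∧ y i = a i + s * t ∧
      ∀ z ∈ Q a t, ∀ z' ∈ Q a t, dist (u z) (u z') ≤ 3 * dist (u x) (u y) := by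
  have hcont : ContinuousOn u (Q a t) := u.continuousOn.mono hQ
  have hcomp := isCompact_Q a ht
  have hane : a ∈ Q a t := fun i => by simpa using ht
  obtain ⟨x, hx, x', hx', hmax'⟩ := exists_far hcomp ⟨a, hane⟩ hcont
  have hnt : Nontrivial (Fin (m + 1)) := Fin.nontrivial_iff_two_le.2 (by omega)
  by_cases hne : u x = u x'
  · obtain ⟨i0, j0, h01⟩ := exists_pair_ne (Fin (m + 1))
    obtain ⟨z, hz, hz0, -⟩ := meet a ht h01 (s := 1) (s' := 1) (by simp) (by simp)
    refine ⟨i0, 1, z, z, by simp, hz, hz, hz0, hz0, ?_⟩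
    intro w hw w' hw'
    have := hmax' w hw w' hw'
    rw [hne, dist_self] at this
    simpa using this
  -- both points lie on the boundary
  obtain ⟨i, hi⟩ := far' u hQ hx (fun z hz => hmax' z hz x' hx') hne
  obtain ⟨j, hj⟩ := far' u hQ (x := x') (x' := x) hx'
    (fun z hz => by rw [dist_comm (u x') (u x)]; exact hmax' z hz x hx) (Ne.symm hne)
  have hsg : ∀ (y : E (m + 1)) (k : Fin (m + 1)), |y k - a k| = t → ∃ s : ℝ, |s| = 1 ∧
      y k = a k + s * t := by
    intro y k hk
    rcases le_total 0 (y k - a k) with h0 | h0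
    · refine ⟨1, by simp, ?_⟩
      rw [abs_of_nonneg h0] at hk
      linarith
    · refine ⟨-1, by simp, ?_⟩
      rw [abs_of_nonpos h0] at hk
      linarith
  obtain ⟨s, hs, hxi⟩ := hsg x i hi
  obtain ⟨s', hs', hxj⟩ := hsg x' j hj
  by_cases hij : i = j
  · subst hij
    obtain ⟨k, hk⟩ : ∃ k : Fin (m + 1), k ≠ i := exists_ne i
    obtain ⟨z, hz, hzi, hzk⟩ := meet a ht hk.symm hs (s' := 1) (by simp)
    obtain ⟨z', hz', hzi', hzk'⟩ := meet a ht hk.symm hs' (s' := 1) (by simp)
    have htri : dist (u x) (u x') ≤ dist (u x) (u z) + dist (u z) (u z') +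
        dist (u z') (u x') := dist_triangle4 _ _ _ _
    rcases le_total (dist (u x) (u x')) (3 * dist (u x) (u z)) with h1 | h1
    · exact ⟨i, s, x, z, hs, hx, hz, hxi, hzi, fun w hw w' hw' => (hmax' w hw w' hw').trans h1⟩
    rcases le_total (dist (u x) (u x')) (3 * dist (u z) (u z')) with h2 | h2
    · exact ⟨k, 1, z, z', by simp, hz, hz', hzk, hzk',
        fun w hw w' hw' => (hmax' w hw w' hw').trans h2⟩
    · exact ⟨i, s', z', x', hs', hz', hx', hzi', hxj,
        fun w hw w' hw' => (hmax' w hw w' hw').trans (by linarith)⟩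
  · obtain ⟨z, hz, hzi, hzj⟩ := meet a ht hij hs hs'
    have htri : dist (u x) (u x') ≤ dist (u x) (u z) + dist (u z) (u x') :=
      dist_triangle _ _ _
    have hnn := dist_nonneg (x := u x) (y := u x')
    rcases le_total (dist (u x) (u x')) (3 * dist (u x) (u z)) with h1 | h1
    · exact ⟨i, s, x, z, hs, hx, hz, hxi, hzi, fun w hw w' hw' => (hmax' w hw w' hw').trans h1⟩
    · exact ⟨j, s', z, x', hs', hz, hx', hzj, hxj,
        fun w hw w' hw' => (hmax' w hw w' hw').trans (by linarith)⟩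

end Pool.Agent.R775.HS
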