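import Pool.Agent.R775.HS.Sob2

/-!
# The theorem on homeomorphisms which are of Sobolev class somewhere
-/

set_option autoImplicit false

open MeasureTheory Set Metric Filter Topology
open scoped ENNReal NNReal

namespace Pool.Agent.R775.HS

open Pool.Agent.Y485.HS Pool.Agent.Y489.SP

/-- the Sobolev class of exponent `q` on an open set, in the form of Hajlasz -/
def SobO {n : ℕ} (q : ℝ) (O : Set (E n)) (f : E n → E n) : Prop :=
  ∃ h : E n → ℝ≥0∞, Measurable h ∧
    (∀ v ∈ O, ∀ w ∈ O, edist (f v) (f w) ≤ edist v w * (h v + h w)) ∧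
    ∫⁻ v in O, h v ^ q < ∞

section
variable {n : ℕ} {X : Type} [TopologicalSpace X]

theorem ener_of_sob (hn : 2 ≤ n) {G : Type} [Group G] [TopologicalSpace G] [MulAction G X]
    [ContinuousSMul G X] (ψ χ : OpenPartialHomeomorph X (E n)) (g : G) {W : Set X}
    (hWo : IsOpen W) (hWn : W.Nonempty) (hWs : W ⊆ ψ.source) (hgW : ∀ x ∈ W, g • x ∈ χ.source)
    {q : ℝ} (hq : (n : ℝ) - 1 < q) (hS : SobO q (ψ '' W) (fun v => χ (g • ψ.symm v))) :
    ∃ W' : Set X, IsOpen W' ∧ W'.Nonempty ∧ W' ⊆ W ∧ ∃ m : ℕ, ∀ j, m ≤ j →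
      Ener (ψ '' W') ((1 / 2) ^ j) (2 ^ j / (j + 1)) (fun v => χ (g • ψ.symm v)) := by
  obtain ⟨h, hm, hH, hI⟩ := hS
  obtain ⟨x0, hx0⟩ := hWn
  have hop : IsOpen (ψ '' W) := ψ.isOpen_image_of_subset_source hWo hWs
  obtain ⟨R, hR, hball⟩ := Metric.isOpen_iff.1 hop (ψ x0) (mem_image_of_mem _ hx0)
  set z0 : E n := ψ x0 with hz0
  set ρ : ℝ := R / 3 with hρdef
  have hρ : 0 < ρ := by positivity
  have hmem : ∀ v ∈ ball z0 R, v ∈ ψ.target ∧ ψ.symm v ∈ W := by
    intro v hv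
    obtain ⟨x, hx, rfl⟩ := hball hv
    exact ⟨ψ.map_source (hWs hx), by rw [ψ.left_inv (hWs hx)]; exact hx⟩
  let u : OpenPartialHomeomorph (E n) (E n) :=
    (ψ.symm.trans ((Homeomorph.smul g).toOpenPartialHomeomorph.trans χ)).restrOpen (ball z0 R)
      isOpen_ball
  have husrc : u.source = ball z0 R := by
    show (ψ.symm.trans ((Homeomorph.smul g).toOpenPartialHomeomorph.trans χ)).source ∩ ball z0 R =
      ball z0 R
    refine inter_eq_right.2 fun v hv => ?_
    obtain ⟨h1, h2⟩ := hmem v hv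
    rw [OpenPartialHomeomorph.trans_source]
    refine ⟨h1, ?_⟩
    rw [mem_preimage, OpenPartialHomeomorph.trans_source]
    exact ⟨mem_univ _, hgW _ h2⟩
  have hu : ∀ v, u v = χ (g • ψ.symm v) := fun v => rfl
  have hHaj : Haj u.source u h := by
    intro v hv w hw
    rw [husrc] at hv hw
    exact hH v (hball hv) w (hball hw)
  have hfin : ∫⁻ x in u.source, h x ^ q < ∞ := by
    rw [husrc]
    exact lt_of_le_of_lt (lintegral_mono_set hball) hI
  obtain ⟨m, hm'⟩ := sob_ener hn u hq hm hHaj hfin hρ (z0 := z0) (by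
    rw [husrc]
    exact closedBall_subset_ball (by rw [hρdef]; linarith))
  refine ⟨W ∩ (ψ.source ∩ ψ ⁻¹' ball z0 ρ), hWo.inter (ψ.isOpen_inter_preimage isOpen_ball),
    ⟨x0, hx0, hWs hx0, mem_ball_self hρ⟩, inter_subset_left, m, fun j hj => ?_⟩
  refine ener_mono ?_ le_rfl (hm' j hj)
  rintro _ ⟨x, hx, rfl⟩
  exact ball_subset_closedBall hx.2.2

/-- Locally effective actions of locally compact groups by homeomorphisms which are somewhere of
class `W^{1,q}`, `q > n - 1`, or have small energies. -/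
theorem lie_somewhere (hn : 2 ≤ n) [T2Space X] (Ψ : ℕ → OpenPartialHomeomorph X (E n))
    {G : Type} [Group G] [TopologicalSpace G] [IsTopologicalGroup G] [LocallyCompactSpace G]
    [T2Space G] [MulAction G X] [ContinuousSMul G X] {V : Set G} (hV : V ∈ 𝓝 (1 : G))
    (hLE : ∀ g, SmallPow V g → ∀ (i : ℕ) (W : Set X), IsOpen W → W.Nonempty → W ⊆ (Ψ i).source →
      (∀ x ∈ W, g • x = x) → g = 1)
    {r b : ℕ → ℝ} (hr : ∀ j, 0 < r j) (hrb : Tendsto (fun j => r j * b j) atTop (𝓝 0))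
    (hreg : ∀ g, SmallPow V g → ∃ (i i' : ℕ) (W : Set X), IsOpen W ∧ W.Nonempty ∧ W ⊆ (Ψ i).source ∧
      (∀ x ∈ W, g • x ∈ (Ψ i').source) ∧
      ((∃ q : ℝ, (n : ℝ) - 1 < q ∧ SobO q (Ψ i '' W) (fun v => Ψ i' (g • (Ψ i).symm v))) ∨
      ∃ m : ℕ, ∀ j, m ≤ j → Ener (Ψ i '' W) (r j) (b j)
        (fun v => Ψ i' (g • (Ψ i).symm v)))) :
    IsLie G := by
  refine lie_some (by omega) Ψ hV hLE
    (r := fun k j => if k = 0 then r j else (1 / 2) ^ j)
    (b := fun k j => if k = 0 then b j else 2 ^ j / (j + 1)) ?_ ?_ ?_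
  · intro k j
    by_cases hk : k = 0
    · simp only [hk, if_true]
      exact hr j
    · simp only [hk, if_false]
      positivity
  · intro k
    by_cases hk : k = 0
    · simp only [hk, if_true]
      exact hrb
    · simp only [hk, if_false]
      have h1 : Tendsto (fun j : ℕ => 1 / ((j : ℝ) + 1)) atTop (𝓝 0) :=
        tendsto_one_div_add_atTop_nhds_zero_nat
      refine h1.congr fun j => ?_
      have h2 : ((1 : ℝ) / 2) ^ j * 2 ^ j = 1 := by
        rw [← mul_pow]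
        norm_num
      rw [← mul_div_assoc, h2]
  · intro g hg
    obtain ⟨i, i', W, hWo, hWn, hWs, hgW, hcase⟩ := hreg g hg
    rcases hcase with ⟨q, hq, hS⟩ | ⟨m, hm⟩
    · obtain ⟨W', h1, h2, h3, m, hm⟩ := ener_of_sob hn (Ψ i) (Ψ i') g hWo hWn hWs hgW hq hS
      refine ⟨i, i', 1, W', h1, h2, h3.trans hWs, fun x hx => hgW x (h3 hx), m, fun j hj => ?_⟩
      simpa using hm j hj
    · refine ⟨i, i', 0, W, hWo, hWn, hWs, hgW, m, fun j hj => ?_⟩
      simpa using hm j hj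

end

end Pool.Agent.R775.HS
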