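import Pool.Agent.R775.HS.Loc

/-!
# The criterion: globalisation

Adaptation of `Pool/Agent/Y489/SP/Main.lean`, `Pool/Agent/Y658/HS/Start.lean` and
`Pool/Agent/Y810/SP/NEWS.lean` to topological charts and to an abstract local condition.
-/

set_option autoImplicit false

open MeasureTheory Set Metric Filter Topology
open scoped ENNReal NNReal

namespace Pool.Agent.R775.HS

open Pool.Agent.Y485.HS Pool.Agent.Y489.SP
open Pool.Agent.W660.GY (NSS GY3)

/-- the family `A` of charts is closed under composition with bi-Lipschitz maps between open sets -/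
def Stable (n : ℕ) {X : Type} [TopologicalSpace X] (A : Set (OpenPartialHomeomorph X (E n))) :
    Prop :=
  ∀ φ ∈ A, ∀ e : OpenPartialHomeomorph (E n) (E n),
    (∃ L : ℝ, ∀ a ∈ e.source, ∀ b ∈ e.source,
      dist (e a) (e b) ≤ L * dist a b ∧ dist a b ≤ L * dist (e a) (e b)) → φ.trans e ∈ A

/-- the points in the domain of some chart of the family -/
def RegA {n : ℕ} {X : Type} [TopologicalSpace X] (A : Set (OpenPartialHomeomorph X (E n))) :
    Set X := {x | ∃ φ ∈ A, x ∈ φ.source}

/-- the elements of `S` move the points of the chart in the ball of radius four by at most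
`1 / 4` -/
def Small {n : ℕ} {X H : Type} [TopologicalSpace X] [SMul H X]
    (φ : OpenPartialHomeomorph X (E n)) (S : Set H) : Prop :=
  closedBall 0 4 ⊆ φ.target ∧ ∀ h ∈ S, ∀ v ∈ closedBall (0 : E n) 4,
    h • φ.symm v ∈ φ.source ∧ dist (φ (h • φ.symm v)) v ≤ 1 / 4

/-- `F` is a map of the ball of radius four close to the identity which is invariant under `g` in
the chart `φ` and the identity at the fixed points, such that for a dense set of `y` every
`g`-invariant continuum in the fibre over `y` contains a fixed point -/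
def GoodMap {n : ℕ} {X H : Type} [TopologicalSpace X] [SMul H X]
    (φ : OpenPartialHomeomorph X (E n)) (g : H) (F : E n → E n) : Prop :=
  ContinuousOn F (closedBall 0 4) ∧ (∀ v ∈ closedBall (0 : E n) 4, dist (F v) v ≤ 1 / 4) ∧
  (∀ v ∈ closedBall (0 : E n) 3, F (φ (g • φ.symm v)) = F v) ∧
  (∀ v ∈ closedBall (0 : E n) 3, g • φ.symm v = φ.symm v → F v = v) ∧
  ∀ y ∈ ball (0 : E n) 1, ∀ ε : ℝ, 0 < ε → ∃ y' ∈ ball (0 : E n) 1, dist y' y < ε ∧
    ∀ C : Set (E n), IsCompact C → IsConnected C → C ⊆ closedBall 0 3 → (∀ v ∈ C, F v = y') →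
      (fun v => φ (g • φ.symm v)) '' C = C → ∃ v ∈ C, g • φ.symm v = φ.symm v

/-- the local condition -/
def Crit {n : ℕ} {X H : Type} [TopologicalSpace X] [Group H] [TopologicalSpace H]
    [IsTopologicalGroup H] [MulAction H X] (A : Set (OpenPartialHomeomorph X (E n))) (g : H) :
    Prop :=
  ∀ p : ℕ, p.Prime → Tendsto (fun j : ℕ => g ^ p ^ j) atTop (𝓝 1) →
    IsCompact ((Subgroup.zpowers g).topologicalClosure : Set H) →
    ∀ φ ∈ A, Small φ ((Subgroup.zpowers g).topologicalClosure : Set H) →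
      ∃ F : E n → E n, GoodMap φ g F

section
variable {n : ℕ} {X : Type} [TopologicalSpace X] {A : Set (OpenPartialHomeomorph X (E n))}

theorem locAct_of_small {H : Type} [Group H] [TopologicalSpace H] [MulAction H X]
    [ContinuousSMul H X] {φ : OpenPartialHomeomorph X (E n)} (H0 : Subgroup H)
    (hs : Small φ (H0 : Set H)) :
    LocAct n H0 (fun (h : H0) v => φ ((h : H) • φ.symm v)) := by
  obtain ⟨ht, hs⟩ := hs
  refine ⟨?_, ?_, ?_, ?_⟩
  · have h1 : ContinuousOn (fun q : H0 × E n => (q.1 : H) • φ.symm q.2) (univ ×ˢ BB n) := by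
      refine ContinuousOn.smul (continuous_subtype_val.comp continuous_fst).continuousOn ?_
      exact φ.continuousOn_symm.comp continuousOn_snd fun q hq => ht hq.2
    exact φ.continuousOn.comp h1 fun q hq => (hs q.1 q.1.2 q.2 hq.2).1
  · intro x hx
    simp only [Subgroup.coe_one, one_smul]
    exact φ.right_inv (ht hx)
  · intro h k x hx hk
    show φ (((h * k : H0) : H) • φ.symm x) = φ ((h : H) • φ.symm (φ ((k : H) • φ.symm x)))
    rw [φ.left_inv (hs k k.2 x hx).1, Subgroup.coe_mul, mul_smul]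
  · intro h x hx
    exact (hs h h.2 x hx).2

/-- a good element acts trivially on the ball of radius one of a chart -/
theorem triv_ball (hn : 1 ≤ n) {H : Type} [Group H] [TopologicalSpace H] [IsTopologicalGroup H]
    [CompactSpace H] [MulAction H X] [ContinuousSMul H X]
    {φ : OpenPartialHomeomorph X (E n)} (hφ : φ ∈ A) {H0 : Subgroup H}
    (hH0 : IsClosed (H0 : Set H)) (hs : Small φ (H0 : Set H)) {p : ℕ} (hp : p.Prime) {g : H}
    (hg : g ∈ H0) (hgp : Tendsto (fun j : ℕ => g ^ p ^ j) atTop (𝓝 1)) (hc : Crit A g) :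
    ∀ v ∈ ball (0 : E n) 1, g • φ.symm v = φ.symm v := by
  have hle : (Subgroup.zpowers g).topologicalClosure ≤ H0 :=
    Subgroup.topologicalClosure_minimal _ ((Subgroup.zpowers_le).2 hg) hH0
  have hcomp : IsCompact ((Subgroup.zpowers g).topologicalClosure : Set H) :=
    (Subgroup.isClosed_topologicalClosure _).isCompact
  obtain ⟨F, hF1, hF2, hF3, hF4, hF5⟩ := hc p hp hgp hcomp φ hφ ⟨hs.1, fun h hh => hs.2 h (hle hh)⟩
  have hLA := locAct_of_small H0 hs
  have hgp' : Tendsto (fun j : ℕ => (⟨g, hg⟩ : H0) ^ p ^ j) atTop (𝓝 1) := by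
    rw [tendsto_subtype_rng]
    simpa using hgp
  have h43 : closedBall (0 : E n) 3 ⊆ closedBall 0 4 := closedBall_subset_closedBall (by norm_num)
  have hiff : ∀ v ∈ closedBall (0 : E n) 4, φ (g • φ.symm v) = v ↔ g • φ.symm v = φ.symm v := by
    intro v hv
    constructor
    · intro h
      rw [← φ.left_inv (hs.2 g hg v hv).1, h]
    · intro h
      rw [h, φ.right_inv (hs.1 hv)]
  have key := loc_main hp hn hLA ⟨g, hg⟩ hgp' F hF1 hF2 hF3
    (fun x hx h => hF4 x hx ((hiff x (h43 hx)).1 h))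
    (fun y hy ε hε => by
      obtain ⟨y', hy', hd, hC⟩ := hF5 y hy ε hε
      refine ⟨y', hy', hd, fun C h1 h2 h3 h4 h5 => ?_⟩
      obtain ⟨v, hv, hgv⟩ := hC C h1 h2 h3 h4 h5
      exact ⟨v, hv, (hiff v (h43 (h3 hv))).2 hgv⟩)
  intro v hv
  have hv4 : v ∈ closedBall (0 : E n) 4 :=
    ball_subset_closedBall.trans (closedBall_subset_closedBall (by norm_num)) hv
  exact (hiff v hv4).1 (key v hv)

/-- similarities as partial homeomorphisms -/
theorem exists_sim (a : E n) {c : ℝ} (hc : 0 < c) : ∃ e : OpenPartialHomeomorph (E n) (E n),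
    e.source = univ ∧ e.target = univ ∧ (∀ v, e v = c • (v - a)) ∧
    (∀ v, e.symm v = c⁻¹ • v + a) := by
  refine ⟨((Homeomorph.addRight (-a)).trans
    (Homeomorph.smulOfNeZero c hc.ne')).toOpenPartialHomeomorph, rfl, rfl, fun v => ?_, fun v => ?_⟩
  · simp [sub_eq_add_neg]
  · simp [Homeomorph.trans, Homeomorph.smulOfNeZero, Homeomorph.addRight_symm, Units.smul_def]

theorem start' (hA : Stable n A) {H : Type} [Group H] [TopologicalSpace H]
    [IsTopologicalGroup H] [CompactSpace H] [T2Space H] [TotallyDisconnectedSpace H]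
    [MulAction H X] [ContinuousSMul H X] {x0 : X} (hx0 : x0 ∈ RegA A) :
    ∃ φ ∈ A, x0 ∈ φ.source ∧ φ x0 = 0 ∧ ∃ H0 : Subgroup H, IsOpen (H0 : Set H) ∧
      Small φ (H0 : Set H) := by
  obtain ⟨φ0, hφ0, hx0⟩ := hx0
  obtain ⟨r, hr, hball⟩ := Metric.isOpen_iff.1 φ0.open_target (φ0 x0) (φ0.map_source hx0)
  set c : ℝ := 5 / r with hc
  have hc0 : 0 < c := by positivity
  obtain ⟨e, he1, he2, he3, he4⟩ := exists_sim (n := n) (φ0 x0) hc0
  have hφ : φ0.trans e ∈ A := by
    refine hA φ0 hφ0 e ⟨max c c⁻¹, fun a _ b _ => ?_⟩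
    have hd : dist (e a) (e b) = c * dist a b := by
      rw [he3, he3, dist_smul₀, Real.norm_of_nonneg hc0.le, dist_sub_right]
    rw [hd]
    constructor
    · exact mul_le_mul_of_nonneg_right (le_max_left _ _) dist_nonneg
    · calc dist a b = c⁻¹ * (c * dist a b) := by field_simp
        _ ≤ max c c⁻¹ * (c * dist a b) :=
          mul_le_mul_of_nonneg_right (le_max_right _ _) (by positivity)
  have hsrc : x0 ∈ (φ0.trans e).source := by
    rw [OpenPartialHomeomorph.trans_source, he1]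
    exact ⟨hx0, mem_univ _⟩
  have htgt : closedBall 0 4 ⊆ (φ0.trans e).target := by
    intro z hz
    rw [OpenPartialHomeomorph.trans_target, he2]
    refine ⟨mem_univ _, hball ?_⟩
    rw [he4, mem_ball, dist_eq_norm, add_sub_cancel_right, norm_smul, Real.norm_of_nonneg
      (inv_nonneg.2 hc0.le)]
    rw [mem_closedBall, dist_zero_right] at hz
    have h2 : c⁻¹ * ‖z‖ ≤ c⁻¹ * 4 := by gcongr
    have h3 : c⁻¹ * 4 < r := by
      rw [hc, inv_div]
      linarith
    linarith
  obtain ⟨φ, hφdef⟩ : ∃ φ, φ = φ0.trans e := ⟨_, rfl⟩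
  rw [← hφdef] at hφ hsrc htgt
  have h0 : φ x0 = 0 := by
    rw [hφdef, OpenPartialHomeomorph.coe_trans, Function.comp_apply, he3, sub_self, smul_zero]
  have key : ∀ᶠ h : H in 𝓝 1, ∀ v ∈ closedBall (0 : E n) 4,
      h • φ.symm v ∈ φ.source ∧ dist (φ (h • φ.symm v)) v ≤ 1 / 4 := by
    apply (isCompact_closedBall (0 : E n) 4).eventually_forall_of_forall_eventually
    intro v hv
    have hvt := htgt hv
    have h1 : ContinuousAt (fun z : H × E n => z.1 • φ.symm z.2) (1, v) := by
      refine ContinuousAt.smul continuousAt_fst ?_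
      exact ContinuousAt.comp (f := fun z : H × E n => z.2) (x := ((1 : H), v))
        (φ.continuousAt_symm hvt) continuousAt_snd
    have hs1 : (1 : H) • φ.symm v ∈ φ.source := by rw [one_smul]; exact φ.map_target hvt
    have h2 : ContinuousAt φ ((1 : H) • φ.symm v) := φ.continuousAt hs1
    have h3 : ContinuousAt (fun z : H × E n => φ (z.1 • φ.symm z.2)) (1, v) :=
      ContinuousAt.comp (f := fun z : H × E n => z.1 • φ.symm z.2) (x := ((1 : H), v)) h2 h1
    have h5 : Tendsto (fun z : H × E n => dist (φ (z.1 • φ.symm z.2)) z.2) (𝓝 (1, v)) (𝓝 0) := by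
      have h6 : Tendsto (fun z : H × E n => dist (φ (z.1 • φ.symm z.2)) z.2) (𝓝 (1, v))
        (𝓝 (dist (φ ((1 : H) • φ.symm v)) v)) := h3.dist continuousAt_snd
      have h7 : dist (φ ((1 : H) • φ.symm v)) v = 0 := by
        rw [one_smul, φ.right_inv hvt, dist_self]
      rwa [h7] at h6
    have h8 : ∀ᶠ z : H × E n in 𝓝 (1, v), z.1 • φ.symm z.2 ∈ φ.source :=
      h1.eventually_mem (φ.open_source.mem_nhds hs1)
    filter_upwards [h8, h5.eventually (gt_mem_nhds (by norm_num : (0 : ℝ) < 1 / 4))] with z hz1 hz2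
    exact ⟨hz1, hz2.le⟩
  obtain ⟨V, hV, hVo, hV1⟩ := eventually_nhds_iff.1 key
  obtain ⟨N, hN⟩ := ProfiniteGrp.exist_openNormalSubgroup_sub_open_nhds_of_one hVo hV1
  exact ⟨φ, hφ, hsrc, h0, N.toSubgroup, N.isOpen, htgt, fun h hh v hv => hV h (hN hh) v hv⟩

theorem isClosed_triv [T2Space X] {H K : Type} [Group H] [TopologicalSpace H] [MulAction H X]
    [ContinuousSMul H X] [TopologicalSpace K] (i : K → H) (hi : Continuous i) (S : Set X) :
    IsClosed {k : K | ∀ x ∈ S, i k • x = x} := by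
  have h1 : {k : K | ∀ x ∈ S, i k • x = x} = ⋂ x ∈ S, {k : K | i k • x = x} := by
    ext k
    simp
  rw [h1]
  refine isClosed_biInter fun x _ => ?_
  have hc : Continuous (fun k : K => i k • x) := by fun_prop
  exact isClosed_eq hc continuous_const

/-- the subgroup of the elements acting trivially on a set -/
def trivSub {H : Type} [Group H] [MulAction H X] (K : Subgroup H) (S : Set X) : Subgroup K where
  carrier := {k | ∀ x ∈ S, (k : H) • x = x}
  mul_mem' := by
    intro a b ha hb x hx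
    rw [Subgroup.coe_mul, mul_smul, hb x hx, ha x hx]
  one_mem' := by
    intro x _
    simp
  inv_mem' := by
    intro a ha x hx
    rw [Subgroup.coe_inv, inv_smul_eq_iff, ha x hx]

theorem locTriv' (hn : 1 ≤ n) [T2Space X] (hA : Stable n A)
    {H : Type} [Group H] [TopologicalSpace H] [IsTopologicalGroup H] [CompactSpace H] [T2Space H]
    [TotallyDisconnectedSpace H] [MulAction H X] [ContinuousSMul H X]
    (hcrit : ∀ h : H, Crit A h) {x0 : X} (hx0 : x0 ∈ RegA A) :
    ∃ K : Subgroup H, IsOpen (K : Set H) ∧ ∀ᶠ x in 𝓝 x0, ∀ k ∈ K, k • x = x := by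
  obtain ⟨φ, hφ, hxφ, hφ0, K, hKo, hKs⟩ := start' hA (H := H) hx0
  have hKc : IsClosed (K : Set H) := Subgroup.isClosed_of_isOpen K hKo
  have : CompactSpace K := isCompact_iff_compactSpace.1 hKc.isCompact
  have hDc : IsClosed (trivSub K (φ.symm '' ball (0 : E n) 1) : Set K) :=
    isClosed_triv (Subtype.val : K → H) continuous_subtype_val _
  have hD : trivSub K (φ.symm '' ball (0 : E n) 1) = ⊤ := by
    refine Pool.Agent.Y215.HS.syl K _ hDc ?_
    intro p hp P hPc hPp k hk
    have : CompactSpace P := isCompact_iff_compactSpace.1 hPc.isCompact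
    have h1 : Tendsto (fun j : ℕ => (⟨k, hk⟩ : P) ^ p ^ j) atTop (𝓝 1) :=
      Pool.Agent.Y340.SP.t_POW p hp P hPp ⟨k, hk⟩
    have hc : Continuous (fun q : P => ((q : K) : H)) :=
      continuous_subtype_val.comp continuous_subtype_val
    have h2 : Tendsto (fun j : ℕ => (k : H) ^ p ^ j) atTop (𝓝 1) := by
      have h3 := (hc.tendsto 1).comp h1
      simpa [Function.comp_def] using h3
    rintro _ ⟨v, hv, rfl⟩
    exact triv_ball hn hφ hKc hKs hp k.2 h2 (hcrit _) v hv
  refine ⟨K, hKo, ?_⟩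
  have hopen : IsOpen (φ.source ∩ φ ⁻¹' ball 0 1) :=
    φ.isOpen_inter_preimage isOpen_ball
  have hmem : x0 ∈ φ.source ∩ φ ⁻¹' ball 0 1 := ⟨hxφ, by simp [hφ0]⟩
  filter_upwards [hopen.mem_nhds hmem] with x hx k hk
  have h1 : (⟨k, hk⟩ : K) ∈ trivSub K (φ.symm '' ball (0 : E n) 1) := by
    rw [hD]; exact Subgroup.mem_top _
  exact h1 x ⟨φ x, hx.2, φ.left_inv hx.1⟩

/-- a partial homeomorphism from an injective bi-Lipschitz map -/
theorem exists_oph {O : Set (E n)} {Φ : E n → E n} {L : ℝ} (hO : IsOpen O)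
    (hΦO : IsOpen (Φ '' O)) (hbl : ∀ x ∈ O, ∀ y ∈ O, dist (Φ x) (Φ y) ≤ L * dist x y ∧
      dist x y ≤ L * dist (Φ x) (Φ y)) :
    ∃ e : OpenPartialHomeomorph (E n) (E n), e.source = O ∧ e.target = Φ '' O ∧
      (∀ x ∈ O, e x = Φ x) := by
  have hinj : InjOn Φ O := by
    intro a ha b hb hab
    have h := (hbl a ha b hb).2
    rw [hab, dist_self, mul_zero] at h
    exact dist_le_zero.1 h
  have hL : ∀ d : ℝ, 0 ≤ d → L * d ≤ (L.toNNReal : ℝ) * d := fun d hd =>
    mul_le_mul_of_nonneg_right (Real.le_coe_toNNReal L) hd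
  have hlip : LipschitzOnWith L.toNNReal Φ O := LipschitzOnWith.of_dist_le_mul fun a ha b hb =>
    ((hbl a ha b hb).1).trans (hL _ dist_nonneg)
  let pe : PartialEquiv (E n) (E n) := hinj.toPartialEquiv Φ O
  have hsymm : ∀ y ∈ Φ '' O, pe.symm y ∈ O ∧ Φ (pe.symm y) = y := fun y hy =>
    ⟨pe.map_target hy, pe.right_inv hy⟩
  have hlip' : LipschitzOnWith L.toNNReal pe.symm (Φ '' O) :=
    LipschitzOnWith.of_dist_le_mul fun a ha b hb => by
      have h1 := hsymm a ha
      have h2 := hsymm b hb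
      have h3 := (hbl _ h1.1 _ h2.1).2
      rw [h1.2, h2.2] at h3
      exact h3.trans (hL _ dist_nonneg)
  exact ⟨{ toPartialEquiv := pe
           open_source := hO
           open_target := hΦO
           continuousOn_toFun := hlip.continuousOn
           continuousOn_invFun := hlip'.continuousOn }, rfl, rfl, fun x _ => rfl⟩

/-- Newman's theorem -/
theorem news' (hn : 1 ≤ n) [T2Space X] (hA : Stable n A)
    {P : Type} [Group P] [TopologicalSpace P] [IsTopologicalGroup P] [CompactSpace P] [T2Space P]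
    [TotallyDisconnectedSpace P] [MulAction P X] [ContinuousSMul P X] {p : ℕ} (hp : p.Prime)
    (hPp : ProP p P) (hcrit : ∀ h : P, Crit A h) {x0 : X} (hx0 : x0 ∈ RegA A)
    (hcl : ∀ V ∈ 𝓝 x0, ∃ a ∈ V, ∀ᶠ x in 𝓝 a, ∀ k : P, k • x = x) :
    ∀ᶠ x in 𝓝 x0, ∀ k : P, k • x = x := by
  by_contra hcon
  obtain ⟨φ, hφA, hxU⟩ := hx0
  -- `x0` is fixed
  have hfix0 : ∀ k : P, k • x0 = x0 := by
    have h1 : IsClosed {x : X | ∀ k : P, k • x = x} := by
      have : {x : X | ∀ k : P, k • x = x} = ⋂ k : P, {x | k • x = x} := by ext; simp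
      rw [this]
      exact isClosed_iInter fun k => isClosed_eq (continuous_const_smul k) continuous_id
    have h2 : x0 ∈ closure {x : X | ∀ k : P, k • x = x} := by
      rw [mem_closure_iff_nhds]
      intro V hV
      obtain ⟨a, haV, ha⟩ := hcl V hV
      exact ⟨a, haV, ha.self_of_nhds⟩
    rw [h1.closure_eq] at h2
    exact h2
  -- a neighbourhood which stays in the chart
  have hstay : ∀ᶠ x in 𝓝 x0, ∀ k : P, k • x ∈ φ.source := by
    have h1 : ∀ k ∈ (univ : Set P), ∀ᶠ q : X × P in 𝓝 (x0, k), q.2 • q.1 ∈ φ.source := by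
      intro k _
      have hc : Continuous (fun q : X × P => q.2 • q.1) := by fun_prop
      have hc' : ContinuousAt (fun q : X × P => q.2 • q.1) (x0, k) := hc.continuousAt
      refine hc'.eventually_mem ?_
      show φ.source ∈ 𝓝 (k • x0)
      rw [hfix0 k]
      exact φ.open_source.mem_nhds hxU
    have h2 := isCompact_univ.eventually_forall_of_forall_eventually
      (P := fun (x : X) (k : P) => k • x ∈ φ.source) h1
    filter_upwards [h2] with x hx k using hx k (mem_univ k)
  set z : E n := φ x0 with hz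
  have hzU : z ∈ φ.target := φ.map_source hxU
  have hG : ∀ᶠ y in 𝓝 z, y ∈ φ.target ∧ (∀ k : P, k • φ.symm y ∈ φ.source) := by
    have h1 : Tendsto φ.symm (𝓝 z) (𝓝 x0) := by
      have := φ.continuousAt_symm hzU
      rw [ContinuousAt, hz, φ.left_inv hxU] at this
      exact this
    filter_upwards [φ.open_target.mem_nhds hzU, h1.eventually hstay] with y h2 h3
    exact ⟨h2, h3⟩
  obtain ⟨ρ, hρ, hρG⟩ := (nhds_basis_closedBall.mem_iff).1 hG
  have hρU : closedBall z ρ ⊆ φ.target := fun y hy => (hρG hy).1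
  let T0 : P → E n → E n := fun k y => φ (k • φ.symm y)
  have hT0c : ContinuousOn (fun q : P × E n => T0 q.1 q.2) (univ ×ˢ closedBall z ρ) := by
    have h1 : ContinuousOn (fun q : P × E n => φ.symm q.2) (univ ×ˢ closedBall z ρ) :=
      φ.continuousOn_symm.comp continuousOn_snd (fun q hq => hρU hq.2)
    have h2 : ContinuousOn (fun q : P × E n => q.1 • φ.symm q.2) (univ ×ˢ closedBall z ρ) :=
      continuousOn_fst.smul h1
    exact φ.continuousOn.comp h2 (fun q hq => (hρG hq.2).2 q.1)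
  have hT01 : ∀ x ∈ closedBall z ρ, T0 1 x = x := fun y hy => by
    show φ ((1 : P) • φ.symm y) = y
    rw [one_smul, φ.right_inv (hρU hy)]
  have hT0m : ∀ h k, ∀ x ∈ closedBall z ρ, T0 k x ∈ closedBall z ρ →
      T0 (h * k) x = T0 h (T0 k x) := by
    intro h k y hy _
    show φ ((h * k) • φ.symm y) = φ (h • φ.symm (φ (k • φ.symm y)))
    rw [φ.left_inv ((hρG hy).2 k), mul_smul]
  have hV : φ.source ∩ φ ⁻¹' ball z ρ ∈ 𝓝 x0 :=
    (φ.isOpen_inter_preimage isOpen_ball).mem_nhds ⟨hxU, mem_ball_self hρ⟩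
  obtain ⟨a, haV, ha⟩ := hcl _ hV
  obtain ⟨x1, hx1V, hx1⟩ : ∃ x1 ∈ φ.source ∩ φ ⁻¹' ball z ρ, ¬ ∀ k : P, k • x1 = x1 := by
    by_contra h
    push Not at h
    exact hcon (mem_of_superset hV fun x hx => h x hx)
  push Not at hx1
  obtain ⟨k1, hk1⟩ := hx1
  have ha' : ∀ᶠ y in 𝓝 (φ a), ∀ k, T0 k y = y := by
    have hmem : φ.target ∈ 𝓝 (φ a) := φ.open_target.mem_nhds (φ.map_source haV.1)
    have h1 : Tendsto φ.symm (𝓝 (φ a)) (𝓝 a) := by
      have := φ.continuousAt_symm (φ.map_source haV.1)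
      rw [ContinuousAt, φ.left_inv haV.1] at this
      exact this
    filter_upwards [hmem, h1.eventually ha] with y hy h2 k
    show φ (k • φ.symm y) = y
    rw [h2 k, φ.right_inv hy]
  have hx1' : ∃ k, T0 k (φ x1) ≠ φ x1 := by
    refine ⟨k1, ?_⟩
    show φ (k1 • φ.symm (φ x1)) ≠ φ x1
    rw [φ.left_inv hx1V.1]
    intro h
    have h2 := (hρG (ball_subset_closedBall hx1V.2)).2 k1
    rw [φ.left_inv hx1V.1] at h2
    exact hk1 (φ.injOn h2 hx1V.1 h)
  obtain ⟨w, O, Φ, L', ⟨kw, hkw⟩, hwO, hOρ, hOo, hΦO, hΦL, hΦw, hΦB, hΦs⟩ :=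
    Pool.Agent.Y665.HS.coord n hn P T0 z ρ hρ hT0c hT01 hT0m (φ a) haV.2 (φ x1) hx1V.2 ha' hx1'
  have hOU : O ⊆ φ.target := fun y hy => hρU (ball_subset_closedBall (hOρ hy))
  obtain ⟨e, he1, he2, he3⟩ := exists_oph hOo hΦO hΦL
  have hφ1 : φ.trans e ∈ A := by
    refine hA φ hφA e ⟨L', fun a ha b hb => ?_⟩
    rw [he1] at ha hb
    rw [he3 a ha, he3 b hb]
    exact hΦL a ha b hb
  -- the new chart
  have hes : ∀ v ∈ closedBall (0 : E n) 4, e.symm v ∈ O ∧ Φ (e.symm v) = v := by
    intro v hv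
    have h1 : v ∈ e.target := by rw [he2]; exact hΦB hv
    have h2 : e.symm v ∈ O := by rw [← he1]; exact e.map_target h1
    exact ⟨h2, by rw [← he3 _ h2]; exact e.right_inv h1⟩
  have hsmall1 : Small (φ.trans e) (univ : Set P) := by
    refine ⟨?_, ?_⟩
    · intro v hv
      rw [OpenPartialHomeomorph.trans_target, he2]
      exact ⟨hΦB hv, hOU (hes v hv).1⟩
    · intro h _ v hv
      obtain ⟨hu, huv⟩ := hes v hv
      have h1 := hΦs (e.symm v) hu (by rw [huv]; exact hv) h
      have h2 : T0 h (e.symm v) = φ (h • φ.symm (e.symm v)) := rfl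
      rw [h2, huv] at h1
      have h3 : h • φ.symm (e.symm v) ∈ φ.source :=
        (hρG (ball_subset_closedBall (hOρ hu))).2 h
      rw [OpenPartialHomeomorph.trans_source, he1]
      simp only [OpenPartialHomeomorph.coe_trans, OpenPartialHomeomorph.coe_trans_symm,
        Function.comp_apply]
      refine ⟨⟨h3, h1.1⟩, ?_⟩
      rw [he3 _ h1.1]
      exact h1.2
  have hfin := triv_ball (A := A) hn (H := P) (H0 := ⊤) hφ1 (by simp)
    (by rw [Subgroup.coe_top]; exact hsmall1) hp (Subgroup.mem_top kw)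
    (Pool.Agent.Y340.SP.t_POW p hp P hPp kw) (hcrit kw) 0 (by simp)
  have hw0 : e.symm 0 = w := by
    have h1 : e w = 0 := by rw [he3 w hwO, hΦw]
    rw [← h1]
    exact e.left_inv (by rw [he1]; exact hwO)
  simp only [OpenPartialHomeomorph.coe_trans_symm, Function.comp_apply, hw0] at hfin
  apply hkw
  show φ (kw • φ.symm w) = w
  rw [hfin, φ.right_inv (hOU hwO)]

/-- A profinite group all of whose elements satisfy the local condition has an open subgroup which
acts trivially. -/
theorem profinite' (hn : 1 ≤ n) [T2Space X] (hA : Stable n A)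
    {H : Type} [Group H] [TopologicalSpace H] [IsTopologicalGroup H] [CompactSpace H] [T2Space H]
    [TotallyDisconnectedSpace H] [MulAction H X] [ContinuousSMul H X]
    (hdense : Dense (RegA A)) (hconn : IsPreconnected (RegA A)) (hcrit : ∀ h : H, Crit A h)
    (hsub : ∀ (K : Subgroup H) (P : Subgroup K), CompactSpace P → ∀ (q : P),
      Crit A ((q : K) : H) → Crit A q) :
    ∃ K : Subgroup H, IsOpen (K : Set H) ∧ ∀ k ∈ K, ∀ x : X, k • x = x := by
  rcases isEmpty_or_nonempty X with hX | hX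
  · exact ⟨⊤, isOpen_univ, fun k _ x => (hX.false x).elim⟩
  obtain ⟨x0, hx0⟩ := hdense.nonempty
  obtain ⟨K, hKo, hKt⟩ := locTriv' hn hA hcrit hx0
  refine ⟨K, hKo, ?_⟩
  have hKc : IsClosed (K : Set H) := Subgroup.isClosed_of_isOpen K hKo
  have : CompactSpace K := isCompact_iff_compactSpace.1 hKc.isCompact
  have hDc : IsClosed (trivSub K (univ : Set X) : Set K) :=
    isClosed_triv (Subtype.val : K → H) continuous_subtype_val _
  have hD : trivSub K (univ : Set X) = ⊤ := by
    refine Pool.Agent.Y215.HS.syl K _ hDc ?_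
    intro p hp P hPc hPp k hk
    have : CompactSpace P := isCompact_iff_compactSpace.1 hPc.isCompact
    -- the interior of the fixed set of `P`
    let Z : Set X := {x | ∀ᶠ y in 𝓝 x, ∀ q : P, q • y = y}
    have hZo : IsOpen Z := by
      rw [isOpen_iff_mem_nhds]
      intro x hx
      exact eventually_eventually_nhds.2 hx
    have hZx : x0 ∈ Z := by
      filter_upwards [hKt] with y hy q
      exact hy ((q : K) : H) (q : K).2
    have hsubZ : RegA A ⊆ Z := by
      refine hconn.subset_of_closure_inter_subset hZo ⟨x0, hx0, hZx⟩ ?_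
      rintro x ⟨hxZ, hxR⟩
      refine news' hn hA hp hPp (fun q => hsub K P inferInstance q (hcrit _)) hxR ?_
      intro V hV
      obtain ⟨a, haV, haZ⟩ := mem_closure_iff_nhds.1 hxZ V hV
      exact ⟨a, haV, haZ⟩
    intro x _
    have hcl : IsClosed {x : X | (k : H) • x = x} :=
      isClosed_eq (continuous_const_smul (k : H)) continuous_id
    have h2 : RegA A ⊆ {x : X | (k : H) • x = x} := by
      intro y hy
      exact (hsubZ hy).self_of_nhds ⟨k, hk⟩
    have h3 := hcl.closure_subset_iff.2 h2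
    rw [hdense.closure_eq] at h3
    exact h3 (mem_univ x)
  intro k hk x
  have h1 : (⟨k, hk⟩ : K) ∈ trivSub K (univ : Set X) := by rw [hD]; exact Subgroup.mem_top _
  exact h1 x (mem_univ x)

end

end Pool.Agent.R775.HS
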