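import Pool.Agent.R775.HS.Ener

/-!
# The average over the closure of the powers of an element
-/

set_option autoImplicit false

open MeasureTheory Set Metric Filter Topology
open scoped ENNReal NNReal

namespace Pool.Agent.R775.HS

open Pool.Agent.Y485.HS Pool.Agent.Y489.SP Pool.Agent.Y475.HS

/-- the average of the action in a chart, read in coordinates `τ` in which the maps have small
energy, is a good map -/
theorem exists_good {n : ℕ} {X : Type} [TopologicalSpace X] [T2Space X] {H : Type} [Group H]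
    [TopologicalSpace H] [IsTopologicalGroup H] [T2Space H] [MulAction H X] [ContinuousSMul H X]
    {φ : OpenPartialHomeomorph X (E n)} {g : H}
    (hcomp : IsCompact ((Subgroup.zpowers g).topologicalClosure : Set H))
    (hs : Small φ ((Subgroup.zpowers g).topologicalClosure : Set H)) {τ σ : E n → E n}
    (hτ : ContinuousOn τ (closedBall 0 3)) (hσc : ContinuousOn σ (τ '' closedBall 0 3))
    (hσ : ∀ v ∈ closedBall (0 : E n) 3, σ (τ v) = v) {r b : ℕ → ℝ} (hr : ∀ j, 0 < r j)
    (hrb : Tendsto (fun j => r j * b j) atTop (𝓝 0))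
    (hE : ∀ q ∈ (Subgroup.zpowers g).topologicalClosure, ∀ j,
      Ener (τ '' closedBall 0 3) (r j) (b j) (fun u => φ (q • φ.symm (σ u)))) :
    ∃ F : E n → E n, GoodMap φ g F := by
  set K : Subgroup H := (Subgroup.zpowers g).topologicalClosure with hKdef
  have hT := locAct_of_small K hs
  set T : K → E n → E n := fun h v => φ ((h : H) • φ.symm v) with hTdef
  have hgmem : g ∈ K := Subgroup.le_topologicalClosure _ (Subgroup.mem_zpowers g)
  have hKcomp : CompactSpace K := isCompact_iff_compactSpace.1 hcomp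
  let _ : MeasurableSpace K := borel K
  have _ : BorelSpace K := ⟨rfl⟩
  let μ : Measure K := Measure.haarMeasure ⊤
  have hμ1 : IsProbabilityMeasure μ := ⟨by
    have := Measure.haarMeasure_self (K₀ := (⊤ : TopologicalSpace.PositiveCompacts K))
    simpa using this⟩
  let S : K → E n → E n := fun k x => T k⁻¹ x
  have hScont : ContinuousOn (fun q : K × E n => S q.1 q.2) (univ ×ˢ BB n) := by
    have hc : Continuous (fun q : K × E n => (q.1⁻¹, q.2)) := by fun_prop
    refine hT.cont.comp hc.continuousOn ?_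
    rintro ⟨k, x⟩ ⟨-, hx⟩
    exact ⟨mem_univ _, hx⟩
  let Φ : C(K, C(BB n, E n)) := res S hScont
  have hint : Integrable (fun ω => Φ ω) μ :=
    Φ.continuous.integrable_of_hasCompactSupport (HasCompactSupport.of_compactSpace _)
  have heval : ∀ x : BB n, ∫ ω, S ω x.1 ∂μ = (∫ ω, Φ ω ∂μ : C(BB n, E n)) x := by
    intro x
    have := (ContinuousMap.evalCLM ℝ x : C(BB n, E n) →L[ℝ] E n).integral_comp_comm hint
    exact this
  set F : E n → E n := fun x => ∫ k, S k x ∂μ with hF
  have hFc : ContinuousOn F (BB n) := by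
    rw [continuousOn_iff_continuous_domRestrict]
    have : (BB n).domRestrict (fun x => ∫ ω, S ω x ∂μ) = (∫ ω, Φ ω ∂μ : C(BB n, E n)) := by
      ext1 x
      exact heval x
    rw [this]
    exact (∫ ω, Φ ω ∂μ : C(BB n, E n)).continuous
  have hSc1 : ∀ x ∈ BB n, Continuous (fun k => S k x) := by
    intro x hx
    have hc : Continuous (fun k : K => (k, x)) := by fun_prop
    exact hScont.comp_continuous hc (fun k => ⟨mem_univ _, hx⟩)
  have hSint : ∀ x ∈ BB n, Integrable (fun k => S k x) μ := fun x hx =>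
    (hSc1 x hx).integrable_of_hasCompactSupport (HasCompactSupport.of_compactSpace _)
  have hdisp : ∀ x ∈ BB n, dist (F x) x ≤ 1 / 4 := by
    intro x hx
    have h1 : F x - x = ∫ k, (S k x - x) ∂μ := by
      rw [integral_sub (hSint x hx) (integrable_const _)]
      simp [hF]
    rw [dist_eq_norm, h1]
    have h2 := norm_integral_le_of_norm_le_const (μ := μ) (f := fun k => S k x - x) (C := 1 / 4)
      (Eventually.of_forall fun k => by
        have := hT.disp k⁻¹ x hx
        rwa [dist_eq_norm] at this)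
    simpa using h2
  have hinv : ∀ k : K, ∀ x ∈ BB n, T k x ∈ BB n → F (T k x) = F x := by
    intro k x hx hkx
    have h1 : ∀ k' : K, S k' (T k x) = S (k⁻¹ * k') x := by
      intro k'
      show T k'⁻¹ (T k x) = T (k⁻¹ * k')⁻¹ x
      rw [← hT.mul _ _ x hx hkx]
      congr 1
      simp
    show ∫ k', S k' (T k x) ∂μ = ∫ k', S k' x ∂μ
    simp_rw [h1]
    exact integral_mul_left_eq_self (fun k' => S k' x) k⁻¹
  have hCB : closedBall (0 : E n) 3 ⊆ BB n := closedBall_subset_closedBall (by norm_num)
  have hs2 := hs.2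
  have hs1 := hs.1
  refine ⟨F, hFc, hdisp, ?_, ?_, ?_⟩
  · intro v hv
    have hvn : ‖v‖ ≤ 3 := by simpa using hv
    have h2 := norm_T_le hT ⟨g, hgmem⟩ (hCB hv)
    exact hinv ⟨g, hgmem⟩ v (hCB hv) (mem_BB.2 (by linarith))
  · intro v hv hgv
    have hall : ∀ k ∈ K, k • φ.symm v = φ.symm v := by
      have h1 : K ≤ MulAction.stabilizer H (φ.symm v) := by
        refine Subgroup.topologicalClosure_minimal _ ?_ ?_
        · rw [Subgroup.zpowers_le]
          exact hgv
        · have h2 : IsClosed {h : H | h • φ.symm v = φ.symm v} := by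
            have hc : Continuous (fun h : H => h • φ.symm v) := by fun_prop
            exact isClosed_eq hc continuous_const
          exact h2
      exact fun k hk => h1 hk
    have h1 : ∀ k : K, S k v = v := by
      intro k
      show φ (((k⁻¹ : K) : H) • φ.symm v) = v
      rw [hall _ (k⁻¹).2, φ.right_inv (hs1 (hCB hv))]
    show ∫ k, S k v ∂μ = v
    simp_rw [h1]
    simp
  · -- the fibres
    have hQ : IsCompact (τ '' closedBall 0 3) := (isCompact_closedBall 0 3).image_of_continuousOn hτ
    have hσm : ∀ u ∈ τ '' closedBall 0 3, σ u ∈ BB n := by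
      rintro _ ⟨v, hv, rfl⟩
      rw [hσ v hv]
      exact hCB hv
    have hfc : ContinuousOn (fun u => F (σ u)) (τ '' closedBall 0 3) := hFc.comp hσc hσm
    have hen : ∀ j, Ener (τ '' closedBall 0 3) (r j) (b j) (fun u => F (σ u)) := by
      intro j
      exact ener_avg μ (fun k u => S k (σ u)) (fun u hu => hSc1 _ (hσm u hu))
        (fun k => hE _ (k⁻¹).2 j)
    have hae := ae_fibre hQ hfc hr hrb hen
    intro y hy ε hε
    have hopen : (ball (0 : E n) 1 ∩ ball y ε) ∈ 𝓝 y :=
      inter_mem (isOpen_ball.mem_nhds hy) (ball_mem_nhds y hε)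
    have hd := Measure.dense_of_ae hae
    obtain ⟨y', ⟨hy1, hy2⟩, hy3⟩ := (mem_closure_iff_nhds.1 (hd y)) _ hopen
    refine ⟨y', hy1, hy2, ?_⟩
    intro C hCc hCn hC3 hCy hCg
    have hpre : IsPreconnected (τ '' C) := hCn.isPreconnected.image _ (hτ.mono hC3)
    have hsub := hy3 (τ '' C) (image_mono hC3) hpre (by
      rintro _ ⟨v, hv, rfl⟩
      rw [hσ v (hC3 hv)]
      exact hCy v hv)
    obtain ⟨v, hv⟩ := hCn.nonempty
    refine ⟨v, hv, ?_⟩
    have hgv : φ (g • φ.symm v) ∈ C := by
      rw [← hCg]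
      exact ⟨v, hv, rfl⟩
    have h1 : τ (φ (g • φ.symm v)) = τ v := hsub (mem_image_of_mem _ hgv) (mem_image_of_mem _ hv)
    have h2 : φ (g • φ.symm v) = v := by
      rw [← hσ _ (hC3 hgv), h1, hσ _ (hC3 hv)]
    have h3 := (hs2 g hgmem v (hCB (hC3 hv))).1
    rw [← φ.left_inv h3, h2]

end Pool.Agent.R775.HS
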