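import Pool.Agent.R775.HS.Glob

/-!
# The criterion for locally compact groups
-/

set_option autoImplicit false

open MeasureTheory Set Metric Filter Topology
open scoped ENNReal NNReal

namespace Pool.Agent.R775.HS

open Pool.Agent.Y485.HS Pool.Agent.Y489.SP
open Pool.Agent.W660.GY (NSS GY3)

section
variable {n : ℕ} {X : Type} [TopologicalSpace X] {A : Set (OpenPartialHomeomorph X (E n))}

/-- the closure of the powers of the image of an element of a compact group -/
theorem closure_zpowers_le {P H : Type} [Group P] [TopologicalSpace P] [IsTopologicalGroup P]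
    [CompactSpace P] [Group H] [TopologicalSpace H] [IsTopologicalGroup H] [T2Space H]
    (i : P →* H) (hi : Continuous i) (q : P) :
    ((Subgroup.zpowers (i q)).topologicalClosure : Set H) ⊆
      i '' ((Subgroup.zpowers q).topologicalClosure : Set P) := by
  have hc : IsCompact (i '' ((Subgroup.zpowers q).topologicalClosure : Set P)) :=
    ((Subgroup.isClosed_topologicalClosure _).isCompact).image hi
  have h1 : (Subgroup.zpowers (i q)).topologicalClosure ≤
      (Subgroup.zpowers q).topologicalClosure.map i := by
    refine Subgroup.topologicalClosure_minimal _ ?_ ?_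
    · rw [Subgroup.zpowers_le]
      exact ⟨q, Subgroup.le_topologicalClosure _ (Subgroup.mem_zpowers q), rfl⟩
    · rw [Subgroup.coe_map]
      exact hc.isClosed
  intro k hk
  have := h1 hk
  rwa [← SetLike.mem_coe, Subgroup.coe_map] at this

theorem crit_of_hom {P H : Type} [Group P] [TopologicalSpace P] [IsTopologicalGroup P]
    [CompactSpace P] [Group H] [TopologicalSpace H] [IsTopologicalGroup H] [T2Space H]
    [MulAction P X] [MulAction H X] (i : P →* H) (hi : Continuous i)
    (hact : ∀ (q : P) (x : X), q • x = i q • x) (q : P) (h : Crit A (i q)) : Crit A q := by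
  intro p hp hgp _ φ hφ hs
  have h1 : Tendsto (fun j : ℕ => (i q) ^ p ^ j) atTop (𝓝 1) := by
    have h2 := (hi.tendsto 1).comp hgp
    simpa [Function.comp_def] using h2
  have hsub := closure_zpowers_le i hi q
  have hcomp : IsCompact ((Subgroup.zpowers (i q)).topologicalClosure : Set H) :=
    ((((Subgroup.isClosed_topologicalClosure _).isCompact).image hi)).of_isClosed_subset
      (Subgroup.isClosed_topologicalClosure _) hsub
  obtain ⟨F, hF⟩ := h p hp h1 hcomp φ hφ ⟨hs.1, by
    intro k hk v hv
    obtain ⟨k', hk', rfl⟩ := hsub hk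
    rw [← hact]
    exact hs.2 k' hk' v hv⟩
  refine ⟨F, ?_⟩
  unfold GoodMap at hF ⊢
  simp only [hact]
  exact hF

/-- The criterion for locally compact groups. -/
theorem lie_crit (hn : 1 ≤ n) [T2Space X] (hA : Stable n A) (hdense : Dense (RegA A))
    (hconn : IsPreconnected (RegA A)) {G : Type} [Group G] [TopologicalSpace G]
    [IsTopologicalGroup G] [LocallyCompactSpace G] [MulAction G X] [ContinuousSMul G X]
    [FaithfulSMul G X] {V : Set G} (hV : V ∈ 𝓝 (1 : G))
    (hcrit : T2Space G → ∀ g : G, ((Subgroup.zpowers g).topologicalClosure : Set G) ⊆ V →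
      Crit A g) : IsLie G := by
  have hT2 : T2Space G := by
    refine ⟨fun g h hgh => ?_⟩
    obtain ⟨x, hx⟩ : ∃ x : X, g • x ≠ h • x := by
      by_contra hall
      push Not at hall
      exact hgh (eq_of_smul_eq_smul hall)
    obtain ⟨u, v, hu, hv, hgu, hhv, huv⟩ := t2_separation hx
    have hc : Continuous (fun g : G => g • x) := by fun_prop
    exact ⟨_, _, hu.preimage hc, hv.preimage hc, hgu, hhv, huv.preimage _⟩
  have hN : NSS G := by
    refine nss_of_Z V hV ?_
    intro S _ _ _ _ _ _ i hi hinj hiV
    let _ : MulAction S X := MulAction.compHom X i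
    have _ : ContinuousSMul S X := ⟨by
      have h : Continuous (fun q : S × X => i q.1 • q.2) := by fun_prop
      exact h⟩
    have hcr : ∀ s : S, Crit A s := fun s =>
      crit_of_hom i hi (fun _ _ => rfl) s (hcrit hT2 (i s) (by
        intro k hk
        obtain ⟨k', -, rfl⟩ := closure_zpowers_le i hi s hk
        exact hiV k'))
    obtain ⟨K, hKo, hKt⟩ := profinite' hn hA hdense hconn hcr (fun K P _ q hq =>
      crit_of_hom (K.subtype.comp P.subtype)
        (continuous_subtype_val.comp continuous_subtype_val) (fun _ _ => rfl) q hq)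
    have hbot : K = ⊥ := by
      rw [eq_bot_iff]
      intro k hk
      rw [Subgroup.mem_bot]
      apply hinj
      refine eq_of_smul_eq_smul (α := X) fun x => ?_
      rw [map_one, one_smul]
      exact hKt k hk x
    rw [hbot] at hKo
    refine discreteTopology_of_isOpen_singleton_one ?_
    convert hKo using 1
    ext x
    simp
  obtain ⟨E, i1, i2, i3, ⟨C⟩⟩ := Pool.Agent.Y328.HS.lga G hN
  letI := i1
  letI := i2
  haveI := i3
  exact Pool.Agent.Y286.HS.lgb G E C

end

end Pool.Agent.R775.HS
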