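import Pool.Agent.R775.HS.Cyc
import Pool.Agent.Y489.SP.Final

/-!
# Invariant continua in the fibres of invariant maps close to the identity
-/

set_option autoImplicit false

open MeasureTheory Set Metric Filter Topology
open scoped ENNReal NNReal

namespace Pool.Agent.R775.HS

open Pool.Agent.Y485.HS Pool.Agent.Y489.SP Pool.Agent.Y532.SP.LOCS

theorem compIn_compact {n : ℕ} {Φ : Set (E n)} (hΦ : IsCompact Φ) {x : E n} (hx : x ∈ Φ) :
    IsCompact (connectedComponentIn Φ x) := by
  have h1 : closure (connectedComponentIn Φ x) ⊆ connectedComponentIn Φ x := by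
    refine IsPreconnected.subset_connectedComponentIn
      (isPreconnected_connectedComponentIn.closure) (subset_closure (mem_connectedComponentIn hx)) ?_
    exact closure_minimal (connectedComponentIn_subset Φ x) hΦ.isClosed
  exact hΦ.of_isClosed_subset (isClosed_of_closure_subset h1) (connectedComponentIn_subset Φ x)

/-- every fibre of an invariant map close to the identity contains an invariant continuum -/
theorem exists_cont {p n : ℕ} (hp : p.Prime) (hn : 1 ≤ n) {H : Type} [Group H]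
    [TopologicalSpace H] {T : H → E n → E n} (hT : LocAct n H T) (g : H)
    (hg : Tendsto (fun j : ℕ => g ^ p ^ j) atTop (𝓝 1)) (F : E n → E n)
    (hFc : ContinuousOn F (BB n)) (hdisp : ∀ x ∈ BB n, dist (F x) x ≤ 1 / 4)
    (hinv : ∀ x ∈ closedBall (0 : E n) 3, F (T g x) = F x) {y : E n} (hy : y ∈ ball (0 : E n) 1) :
    ∃ C : Set (E n), IsCompact C ∧ IsConnected C ∧ C ⊆ closedBall 0 (5 / 4) ∧
      (∀ x ∈ C, F x = y) ∧ T g '' C = C := by
  by_contra hcon
  have hCB : closedBall (0 : E n) 3 ⊆ BB n := closedBall_subset_closedBall (by norm_num)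
  have hy1 : ‖y‖ < 1 := by simpa using hy
  set Φ : Set (E n) := {x | x ∈ closedBall (0 : E n) 3 ∧ F x = y} with hΦ
  have hΦB : ∀ x ∈ Φ, x ∈ BB n := fun x hx => hCB hx.1
  have hΦn : ∀ x ∈ Φ, ‖x‖ < 5 / 4 := by
    intro x hx
    have := hdisp x (hΦB x hx)
    rw [hx.2, dist_eq_norm] at this
    calc ‖x‖ = ‖y - (y - x)‖ := by congr 1; abel
      _ ≤ ‖y‖ + ‖y - x‖ := norm_sub_le _ _
      _ < _ := by linarith
  have hΦm : ∀ x ∈ Φ, T g x ∈ Φ := by
    intro x hx
    have h1 := hΦn x hx
    have h2 := norm_T_le hT g (hΦB x hx)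
    refine ⟨by simp; linarith, ?_⟩
    rw [hinv x hx.1]
    exact hx.2
  have hgg : ∀ x ∈ Φ, T g (T g⁻¹ x) = x := by
    intro x hx
    have h1 := hΦn x hx
    have h2 := norm_T_le hT g⁻¹ (hΦB x hx)
    have h3 := hT.mul g g⁻¹ x (hΦB x hx) (mem_BB.2 (by linarith))
    rw [mul_inv_cancel, hT.one x (hΦB x hx)] at h3
    exact h3.symm
  have hgg' : ∀ x ∈ Φ, T g⁻¹ (T g x) = x := by
    intro x hx
    have h3 := hT.mul g⁻¹ g x (hΦB x hx) (hΦB _ (hΦm x hx))
    rw [inv_mul_cancel, hT.one x (hΦB x hx)] at h3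
    exact h3.symm
  have hΦm' : ∀ x ∈ Φ, T g⁻¹ x ∈ Φ := by
    intro x hx
    have h1 := hΦn x hx
    have h2 := norm_T_le hT g⁻¹ (hΦB x hx)
    have h3 : T g⁻¹ x ∈ closedBall (0 : E n) 3 := by simp; linarith
    refine ⟨h3, ?_⟩
    rw [← hinv _ h3, hgg x hx]
    exact hx.2
  have hΦc : IsCompact Φ := by
    have h1 : IsClosed Φ := by
      have h2 : Φ = closedBall (0 : E n) 3 ∩ F ⁻¹' {y} := by
        ext x
        simp [Φ]
      rw [h2]
      exact (hFc.mono hCB).preimage_isClosed_of_isClosed isClosed_closedBall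
        (isClosed_singleton (x := y))
    exact (isCompact_closedBall (0 : E n) 3).of_isClosed_subset h1 (fun x hx => hx.1)
  have hcomp : ∀ x ∈ Φ, T g x ∉ connectedComponentIn Φ x := by
    intro x hx hmem
    have hsub := connectedComponentIn_subset Φ x
    have hpre : IsPreconnected (connectedComponentIn Φ x) := isPreconnected_connectedComponentIn
    refine hcon ⟨connectedComponentIn Φ x, compIn_compact hΦc hx,
      ⟨⟨x, mem_connectedComponentIn hx⟩, hpre⟩, ?_, fun z hz => (hsub hz).2, ?_⟩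
    · intro z hz
      have := hΦn z (hsub hz)
      simp only [mem_closedBall, dist_zero_right]
      exact this.le
    · refine Subset.antisymm ?_ ?_
      · rw [connectedComponentIn_eq hmem]
        refine IsPreconnected.subset_connectedComponentIn ?_ ?_ ?_
        · rw [← connectedComponentIn_eq hmem]
          exact hpre.image _ ((hT.cont_right g).mono fun z hz => hΦB z (hsub hz))
        · rw [← connectedComponentIn_eq hmem]
          exact mem_image_of_mem _ (mem_connectedComponentIn hx)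
        · rw [← connectedComponentIn_eq hmem]
          rintro _ ⟨z, hz, rfl⟩
          exact hΦm z (hsub hz)
      · have h1 : T g⁻¹ '' connectedComponentIn Φ x ⊆ connectedComponentIn Φ x := by
          refine IsPreconnected.subset_connectedComponentIn ?_ ?_ ?_
          · exact hpre.image _ ((hT.cont_right g⁻¹).mono fun z hz => hΦB z (hsub hz))
          · exact ⟨T g x, hmem, hgg' x hx⟩
          · rintro _ ⟨z, hz, rfl⟩
            exact hΦm' z (hsub hz)
        intro z hz
        exact ⟨T g⁻¹ z, h1 (mem_image_of_mem _ hz), hgg z (hsub hz)⟩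
  obtain ⟨W, hW1, hW2, hW3, hW4⟩ := cyc_of_comp hp (τ := T g) hΦc
    ((hT.cont_right g).mono hΦB) hΦm
    (fun ε hε => by
      obtain ⟨J, hJ⟩ := unif hT (fun j => g ^ p ^ j) hg ε hε
      refine ⟨J, fun x hx => ?_⟩
      rw [(iter_eq hT g Φ hΦB hΦm (p ^ J) x hx).1]
      exact hJ x (hΦB x hx)) hcomp
  exact degp n hn p hp.two_le F (T g) hFc (hT.cont_right g) hdisp (hT.disp g) hinv y hy W
    hW1 hW2 hW3 hW4

/-- the local theorem -/
theorem loc_main {p n : ℕ} (hp : p.Prime) (hn : 1 ≤ n) {H : Type} [Group H]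
    [TopologicalSpace H] {T : H → E n → E n} (hT : LocAct n H T) (g : H)
    (hg : Tendsto (fun j : ℕ => g ^ p ^ j) atTop (𝓝 1)) (F : E n → E n)
    (hFc : ContinuousOn F (BB n)) (hdisp : ∀ x ∈ BB n, dist (F x) x ≤ 1 / 4)
    (hinv : ∀ x ∈ closedBall (0 : E n) 3, F (T g x) = F x)
    (hfix : ∀ x ∈ closedBall (0 : E n) 3, T g x = x → F x = x)
    (hden : ∀ y ∈ ball (0 : E n) 1, ∀ ε : ℝ, 0 < ε → ∃ y' ∈ ball (0 : E n) 1, dist y' y < ε ∧
      ∀ C : Set (E n), IsCompact C → IsConnected C → C ⊆ closedBall 0 3 → (∀ x ∈ C, F x = y') →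
        T g '' C = C → ∃ x ∈ C, T g x = x) :
    ∀ x ∈ ball (0 : E n) 1, T g x = x := by
  intro y hy
  by_contra hne
  have hy1 : ‖y‖ < 1 := by simpa using hy
  have hnhd : BB n ∈ 𝓝 y := by
    refine mem_of_superset (isOpen_ball.mem_nhds hy) ?_
    exact ball_subset_closedBall.trans (closedBall_subset_closedBall (by norm_num))
  have hc : ContinuousAt (fun x => dist (T g x) x) y :=
    ((hT.cont_right g).continuousAt hnhd).dist continuousAt_id
  have hpos : 0 < dist (T g y) y := dist_pos.2 hne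
  obtain ⟨ε, hε, hball⟩ := Metric.eventually_nhds_iff.1 (hc.eventually (lt_mem_nhds hpos))
  obtain ⟨y', hy', hd, hC⟩ := hden y hy ε hε
  obtain ⟨C, hCc, hCn, hCs, hCF, hCg⟩ := exists_cont hp hn hT g hg F hFc hdisp hinv hy'
  have hCs' : C ⊆ closedBall 0 3 := hCs.trans (closedBall_subset_closedBall (by norm_num))
  obtain ⟨x, hx, hgx⟩ := hC C hCc hCn hCs' hCF hCg
  have h1 := hfix x (hCs' hx) hgx
  rw [hCF x hx] at h1
  have h2 := hball hd
  simp only [h1, hgx, dist_self, lt_irrefl] at h2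

end Pool.Agent.R775.HS
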